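import Pool.Agent.H47.DR.LSb

/-!
# Module Ang (about 150 lines, plane trigonometry)

Let `ν` be a unit vector. Choose an orthonormal basis `e1, e2` of the plane orthogonal to `ν`
(e.g. extend `ν`, or `e1` any unit vector orthogonal to `ν` and `e2` orthogonal to both). For `x` in
this plane put `ζ x = (ip x e1 + I ip x e2) ^ 2`. If `x, y` are unit vectors of the plane then
`‖ζ x‖ = 1`, `ip x y = Re ((x1 + I x2) conj (y1 + I y2))` and
`2 (ip x y)^2 - 1 = Re (ζ x * conj (ζ y))` (double angle formula,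
`(x1^2 + x2^2)(y1^2 + y2^2) = 1`).

* `T_eq`: `T l = ‖∑ ζ (u i)‖ ^ 2`, so `T l ≥ 0`; weighted form `wT_nonneg`.
* `abs_sum_re`: the sum is `Re (conj ζ_i * S)` (or its conjugate), `|.| ≤ ‖S‖ = sqrt (T l)`.
* `abs_sum_im`: let `w = ±(e-rotation of u i)` be the unit vector of the plane orthogonal to `u i`.
  For `j` in `l`: `u j = (ip (u j) (u i)) u i + b_j w` with `b_j = ip (u j) w`,
  `b_j ^ 2 = 1 - ip (u j) (u i) ^ 2`, `ip (u j) v = b_j ip w v` (since `ip (u i) v = 0`). If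
  `ip w v = 0` all signs are `0`. Otherwise `sign (ip (u j) v) = sign b_j * sign (ip w v)` and
  `sqrt (1 - ..) * sign b_j = b_j`, so the sum is `± ∑ 2 ip (u j) (u i) b_j`, and
  `2 ip (u j) (u i) b_j = Im (ζ_j conj ζ_i)` up to a fixed sign. So the sum is
  `± Im (S conj ζ_i)`.
-/

set_option autoImplicit false

namespace H47.DR

open Finset

variable {n : ℕ}

private theorem ang_frame (ν : E) (hν : ‖ν‖ = 1) :
    ∃ e1 e2 : E, ∀ x y : E, ip x ν = 0 →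
      ip x y = ip x e1 * ip y e1 + ip x e2 * ip y e2 := by
  have hν0 : ν ≠ 0 := by
    intro h
    rw [h, norm_zero] at hν
    norm_num at hν
  have hfact : Fact (Module.finrank ℝ E = 2 + 1) := ⟨by simp [E]⟩
  have hK : Module.finrank ℝ (Submodule.span ℝ {ν} : Submodule ℝ E)ᗮ = 2 :=
    Submodule.finrank_orthogonal_span_singleton hν0
  let b : OrthonormalBasis (Fin 2) ℝ (Submodule.span ℝ {ν} : Submodule ℝ E)ᗮ :=
    (stdOrthonormalBasis ℝ (Submodule.span ℝ {ν} : Submodule ℝ E)ᗮ).reindex (finCongr hK)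
  refine ⟨(b 0 : E), (b 1 : E), ?_⟩
  intro x y hx
  have hxK : x ∈ (Submodule.span ℝ {ν} : Submodule ℝ E)ᗮ := by
    rw [Submodule.mem_orthogonal_singleton_iff_inner_left]
    exact hx
  have hsum := b.sum_repr ⟨x, hxK⟩
  have hx2 : x = ip x (b 0 : E) • (b 0 : E) + ip x (b 1 : E) • (b 1 : E) := by
    have h2 := congrArg (fun z : (Submodule.span ℝ {ν} : Submodule ℝ E)ᗮ => (z : E)) hsum
    simp only [Fin.sum_univ_two, OrthonormalBasis.repr_apply_apply, Submodule.coe_add,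
      Submodule.coe_smul, Submodule.coe_inner] at h2
    rw [real_inner_comm x (b 0 : E), real_inner_comm x (b 1 : E)] at h2
    exact h2.symm
  have h3 : ip x y = ip (ip x (b 0 : E) • (b 0 : E) + ip x (b 1 : E) • (b 1 : E)) y := by
    rw [← hx2]
  rw [h3]
  change inner ℝ _ _ = _
  rw [inner_add_left, real_inner_smul_left, real_inner_smul_left,
    real_inner_comm y (b 0 : E), real_inner_comm y (b 1 : E)]

private theorem ang_cpx (a b c d : ℝ) (h1 : a ^ 2 + b ^ 2 = 1) (h2 : c ^ 2 + d ^ 2 = 1) :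
    2 * (a * c + b * d) ^ 2 - 1
      = ((⟨a, b⟩ : ℂ) ^ 2 * (starRingEnd ℂ) ((⟨c, d⟩ : ℂ) ^ 2)).re := by
  simp only [pow_two, map_mul, Complex.mul_re, Complex.mul_im, Complex.conj_re, Complex.conj_im]
  have h3 : (a ^ 2 + b ^ 2) * (c ^ 2 + d ^ 2) = 1 := by rw [h1, h2]; ring
  nlinarith

private theorem ang_cpx_im (a b c d : ℝ) :
    2 * (a * c + b * d) * (b * c - a * d)
      = ((⟨a, b⟩ : ℂ) ^ 2 * (starRingEnd ℂ) ((⟨c, d⟩ : ℂ) ^ 2)).im := by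
  simp only [pow_two, map_mul, Complex.mul_re, Complex.mul_im, Complex.conj_re, Complex.conj_im]
  ring

private theorem ang_norm (a b : ℝ) (h1 : a ^ 2 + b ^ 2 = 1) : ‖(⟨a, b⟩ : ℂ) ^ 2‖ = 1 := by
  rw [norm_pow, ← Complex.normSq_eq_norm_sq, Complex.normSq_mk]
  nlinarith

private theorem ang_one (ν e1 e2 : E) (he : ∀ x y : E, ip x ν = 0 →
      ip x y = ip x e1 * ip y e1 + ip x e2 * ip y e2) (x : E) (hx : ip x ν = 0) (h1 : ‖x‖ = 1) :
    ip x e1 ^ 2 + ip x e2 ^ 2 = 1 := by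
  have h := he x x hx
  have h2 : ip x x = 1 := by
    change inner ℝ x x = 1
    rw [real_inner_self_eq_norm_sq, h1]
    norm_num
  rw [h2] at h
  nlinarith

/-- Angles in a plane, as unit complex numbers of the double angle. -/
theorem ang (ν : E) (hν : ‖ν‖ = 1) :
    ∃ ζ : E → ℂ, (∀ x : E, ip x ν = 0 → ‖x‖ = 1 → ‖ζ x‖ = 1) ∧
      ∀ x y : E, ip x ν = 0 → ip y ν = 0 → ‖x‖ = 1 → ‖y‖ = 1 →
        2 * ip x y ^ 2 - 1 = (ζ x * (starRingEnd ℂ) (ζ y)).re := by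
  obtain ⟨e1, e2, he⟩ := ang_frame ν hν
  refine ⟨fun x => (⟨ip x e1, ip x e2⟩ : ℂ) ^ 2, ?_, ?_⟩
  · intro x hx h1
    exact ang_norm _ _ (ang_one ν e1 e2 he x hx h1)
  · intro x y hx hy h1 h2
    rw [he x y hx]
    exact ang_cpx _ _ _ _ (ang_one ν e1 e2 he x hx h1) (ang_one ν e1 e2 he y hy h2)

private theorem ang_sum_sq {ι : Type} (s : Finset ι) (z : ι → ℂ) :
    ∑ i ∈ s, ∑ j ∈ s, (z i * (starRingEnd ℂ) (z j)).re = ‖∑ i ∈ s, z i‖ ^ 2 := by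
  have h1 : ∑ i ∈ s, ∑ j ∈ s, (z i * (starRingEnd ℂ) (z j)).re
      = ((∑ i ∈ s, z i) * (starRingEnd ℂ) (∑ j ∈ s, z j)).re := by
    rw [map_sum, Finset.sum_mul_sum, Complex.re_sum]
    apply Finset.sum_congr rfl
    intro i _
    rw [Complex.re_sum]
  rw [h1, Complex.mul_conj, Complex.ofReal_re, Complex.normSq_eq_norm_sq]

/-- The weighted energy of coplanar unit vectors is not negative. -/
theorem wT_nonneg {ι : Type} (s : Finset ι) (u : ι → E) (w : ι → ℝ) (ν : E) (hν : ‖ν‖ = 1)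
    (h : ∀ i ∈ s, ‖u i‖ = 1 ∧ ip (u i) ν = 0) :
    0 ≤ ∑ i ∈ s, ∑ j ∈ s, w i * w j * (2 * ip (u i) (u j) ^ 2 - 1) := by
  obtain ⟨ζ, hz1, hz2⟩ := ang ν hν
  have h1 : ∑ i ∈ s, ∑ j ∈ s, w i * w j * (2 * ip (u i) (u j) ^ 2 - 1)
      = ∑ i ∈ s, ∑ j ∈ s, (((w i : ℂ) * ζ (u i)) * (starRingEnd ℂ) ((w j : ℂ) * ζ (u j))).re := by
    apply Finset.sum_congr rfl
    intro i hi
    apply Finset.sum_congr rfl
    intro j hj
    rw [hz2 (u i) (u j) (h i hi).2 (h j hj).2 (h i hi).1 (h j hj).1]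
    have : ((w i : ℂ) * ζ (u i)) * (starRingEnd ℂ) ((w j : ℂ) * ζ (u j))
        = ((w i * w j : ℝ) : ℂ) * (ζ (u i) * (starRingEnd ℂ) (ζ (u j))) := by
      rw [map_mul, Complex.conj_ofReal]
      push_cast
      ring
    rw [this, Complex.re_ofReal_mul]
  rw [h1, ang_sum_sq]
  positivity

theorem Cfg.T_nonneg (C : Cfg n) {l : Finset (Fin n)} (hl : l ∈ C.L) : 0 ≤ C.T l := by
  obtain ⟨ν, hν, hn⟩ := C.nu l hl
  have h := wT_nonneg l C.u (fun _ => 1) ν hν (fun i hi => ⟨C.unit i, (hn i).1 hi⟩)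
  simpa [Cfg.T] using h

private theorem ang_T (C : Cfg n) (l : Finset (Fin n)) (ν e1 e2 : E)
    (hn : ∀ i, i ∈ l ↔ ip (C.u i) ν = 0)
    (he : ∀ x y : E, ip x ν = 0 → ip x y = ip x e1 * ip y e1 + ip x e2 * ip y e2) :
    Real.sqrt (C.T l) = ‖∑ j ∈ l, (⟨ip (C.u j) e1, ip (C.u j) e2⟩ : ℂ) ^ 2‖ := by
  have h : C.T l = ‖∑ j ∈ l, (⟨ip (C.u j) e1, ip (C.u j) e2⟩ : ℂ) ^ 2‖ ^ 2 := by
    rw [← ang_sum_sq]
    unfold Cfg.T
    apply Finset.sum_congr rfl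
    intro i hi
    apply Finset.sum_congr rfl
    intro j hj
    rw [he _ _ ((hn i).1 hi)]
    exact ang_cpx _ _ _ _ (ang_one ν e1 e2 he _ ((hn i).1 hi) (C.unit i))
      (ang_one ν e1 e2 he _ ((hn j).1 hj) (C.unit j))
  rw [h, Real.sqrt_sq (norm_nonneg _)]

theorem Cfg.abs_sum_re (C : Cfg n) {l : Finset (Fin n)} (hl : l ∈ C.L) {i : Fin n} (hi : i ∈ l) :
    |∑ j ∈ l, (2 * ip (C.u i) (C.u j) ^ 2 - 1)| ≤ Real.sqrt (C.T l) := by
  obtain ⟨ν, hν, hn⟩ := C.nu l hl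
  obtain ⟨e1, e2, he⟩ := ang_frame ν hν
  rw [ang_T C l ν e1 e2 hn he]
  have h1 : ∑ j ∈ l, (2 * ip (C.u i) (C.u j) ^ 2 - 1)
      = ((⟨ip (C.u i) e1, ip (C.u i) e2⟩ : ℂ) ^ 2 * (starRingEnd ℂ)
        (∑ j ∈ l, (⟨ip (C.u j) e1, ip (C.u j) e2⟩ : ℂ) ^ 2)).re := by
    rw [map_sum, Finset.mul_sum, Complex.re_sum]
    apply Finset.sum_congr rfl
    intro j hj
    rw [he _ _ ((hn i).1 hi)]
    exact ang_cpx _ _ _ _ (ang_one ν e1 e2 he _ ((hn i).1 hi) (C.unit i))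
      (ang_one ν e1 e2 he _ ((hn j).1 hj) (C.unit j))
  rw [h1]
  refine (Complex.abs_re_le_norm _).trans ?_
  rw [norm_mul, ang_norm _ _ (ang_one ν e1 e2 he _ ((hn i).1 hi) (C.unit i)), one_mul,
    Complex.norm_conj]

private theorem ang_sign (t D : ℝ) : |D| * Real.sign (t * D) = D * Real.sign t := by
  rcases lt_trichotomy D 0 with h | h | h
  · rw [abs_of_neg h]
    rcases lt_trichotomy t 0 with h' | h' | h'
    · rw [Real.sign_of_pos (mul_pos_of_neg_of_neg h' h), Real.sign_of_neg h']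
      ring
    · rw [h', zero_mul, Real.sign_zero]
      ring
    · rw [Real.sign_of_neg (mul_neg_of_pos_of_neg h' h), Real.sign_of_pos h']
      ring
  · rw [h, mul_zero, Real.sign_zero, abs_zero]
    ring
  · rw [abs_of_pos h]
    rcases lt_trichotomy t 0 with h' | h' | h'
    · rw [Real.sign_of_neg (mul_neg_of_neg_of_pos h' h), Real.sign_of_neg h']
    · rw [h', zero_mul, Real.sign_zero]
    · rw [Real.sign_of_pos (mul_pos h' h), Real.sign_of_pos h']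

private theorem ang_sign_le (t : ℝ) : |Real.sign t| ≤ 1 := by
  rcases Real.sign_apply_eq t with h | h | h <;> rw [h] <;> norm_num

theorem Cfg.abs_sum_im (C : Cfg n) {l : Finset (Fin n)} (hl : l ∈ C.L) {i : Fin n} (hi : i ∈ l)
    (v : E) (hv : ip (C.u i) v = 0) :
    |∑ j ∈ l, 2 * ip (C.u j) (C.u i) * Real.sqrt (1 - ip (C.u j) (C.u i) ^ 2)
        * Real.sign (ip (C.u j) v)| ≤ Real.sqrt (C.T l) := by
  obtain ⟨ν, hν, hn⟩ := C.nu l hl
  obtain ⟨e1, e2, he⟩ := ang_frame ν hν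
  rw [ang_T C l ν e1 e2 hn he]
  obtain ⟨c, hc⟩ : ∃ c, c = ip (C.u i) e1 := ⟨_, rfl⟩
  obtain ⟨d, hd⟩ : ∃ d, d = ip (C.u i) e2 := ⟨_, rfl⟩
  obtain ⟨p, hp⟩ : ∃ p, p = ip v e1 := ⟨_, rfl⟩
  obtain ⟨q, hq⟩ : ∃ q, q = ip v e2 := ⟨_, rfl⟩
  have hcd : c ^ 2 + d ^ 2 = 1 := by
    rw [hc, hd]
    exact ang_one ν e1 e2 he _ ((hn i).1 hi) (C.unit i)
  have hpq : c * p + d * q = 0 := by
    rw [← hv, he _ _ ((hn i).1 hi), hc, hd, hp, hq]
  obtain ⟨t, ht⟩ : ∃ t, t = c * q - d * p := ⟨_, rfl⟩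
  have hp2 : p = - t * d := by
    rw [ht]
    linear_combination (-p) * hcd + c * hpq
  have hq2 : q = t * c := by
    rw [ht]
    linear_combination (-q) * hcd + d * hpq
  have h1 : ∑ j ∈ l, 2 * ip (C.u j) (C.u i) * Real.sqrt (1 - ip (C.u j) (C.u i) ^ 2)
        * Real.sign (ip (C.u j) v)
      = Real.sign t * ((∑ j ∈ l, (⟨ip (C.u j) e1, ip (C.u j) e2⟩ : ℂ) ^ 2) *
        (starRingEnd ℂ) ((⟨c, d⟩ : ℂ) ^ 2)).im := by
    rw [Finset.sum_mul, Complex.im_sum, Finset.mul_sum]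
    apply Finset.sum_congr rfl
    intro j hj
    rw [← ang_cpx_im]
    have hab := ang_one ν e1 e2 he _ ((hn j).1 hj) (C.unit j)
    rw [he _ (C.u i) ((hn j).1 hj), he _ v ((hn j).1 hj), ← hc, ← hd, ← hp, ← hq]
    generalize ip (C.u j) e1 = a at hab ⊢
    generalize ip (C.u j) e2 = b at hab ⊢
    have h2 : 1 - (a * c + b * d) ^ 2 = (b * c - a * d) ^ 2 := by
      have : (a ^ 2 + b ^ 2) * (c ^ 2 + d ^ 2) = 1 := by rw [hab, hcd]; ring
      nlinarith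
    have h3 : a * p + b * q = t * (b * c - a * d) := by
      rw [hp2, hq2]
      ring
    rw [h2, Real.sqrt_sq_eq_abs, h3, mul_assoc (2 * (a * c + b * d)), ang_sign]
    ring
  rw [h1, abs_mul]
  have h4 := Complex.abs_im_le_norm ((∑ j ∈ l, (⟨ip (C.u j) e1, ip (C.u j) e2⟩ : ℂ) ^ 2) *
        (starRingEnd ℂ) ((⟨c, d⟩ : ℂ) ^ 2))
  rw [norm_mul, Complex.norm_conj, ang_norm _ _ hcd, mul_one] at h4
  calc |Real.sign t| * _ ≤ 1 * _ :=
        mul_le_mul (ang_sign_le t) h4 (abs_nonneg _) (by norm_num)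
    _ = _ := one_mul _

end H47.DR
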