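import Mathlib

/-!
# Dirac's problem (MP_5c92e3_co): definitions

Configurations of `n` points of the real projective plane (unit vectors of Euclidean 3-space, up to
sign) with their lines. Paper: /team-store/h47_dirac_paper.md (helper47).
-/

set_option autoImplicit false

namespace H47.DR

open Finset

/-- Euclidean 3-space. -/
abbrev E := EuclideanSpace ℝ (Fin 3)

/-- The inner product of Euclidean 3-space. -/
noncomputable abbrev ip (x y : E) : ℝ := inner ℝ x y

/-- The unit sphere of Euclidean 3-space. -/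
abbrev S2 := Metric.sphere (0 : E) 1

/-- A finite linear space on `Fin n`: every line has at least two points and two different points
are on exactly one line. -/
structure LS (n : ℕ) where
  L : Finset (Finset (Fin n))
  two : ∀ l ∈ L, 2 ≤ l.card
  ex : ∀ i j, i ≠ j → ∃ l ∈ L, i ∈ l ∧ j ∈ l
  uniq : ∀ l ∈ L, ∀ l' ∈ L, ∀ i j, i ≠ j → i ∈ l → j ∈ l → i ∈ l' → j ∈ l' → l = l'

/-- Number of lines through `i`. -/
def LS.deg {n : ℕ} (C : LS n) (i : Fin n) : ℕ := (C.L.filter (fun l => i ∈ l)).card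

/-- The line through `i` and `j` (for `i ≠ j`). -/
def LS.ln {n : ℕ} (C : LS n) (i j : Fin n) : Finset (Fin n) :=
  univ.filter (fun k => ∃ l ∈ C.L, i ∈ l ∧ j ∈ l ∧ k ∈ l)

/-- The number of points of the line through `i` and `j` (for `i ≠ j`). -/
def LS.r {n : ℕ} (C : LS n) (i j : Fin n) : ℕ := (C.ln i j).card

/-- A configuration: pairwise independent unit vectors with the linear space of their lines
(traces of planes). -/
structure Cfg (n : ℕ) extends LS n where
  u : Fin n → E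
  unit : ∀ i, ‖u i‖ = 1
  indep : ∀ i j, i ≠ j → |ip (u i) (u j)| < 1
  nu : ∀ l ∈ L, ∃ ν : E, ‖ν‖ = 1 ∧ ∀ i, i ∈ l ↔ ip (u i) ν = 0

/-- The energy of a line: the square of the absolute value of the sum of the unit complex numbers
`exp (2 i angle)`. -/
noncomputable def Cfg.T {n : ℕ} (C : Cfg n) (l : Finset (Fin n)) : ℝ :=
  ∑ i ∈ l, ∑ j ∈ l, (2 * ip (C.u i) (C.u j) ^ 2 - 1)

/-- The point of the sphere belonging to the index `i`. -/
def Cfg.us {n : ℕ} (C : Cfg n) (i : Fin n) : S2 := ⟨C.u i, by simp [C.unit i]⟩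

/-- Near extremal configurations. -/
structure Good {n : ℕ} (C : Cfg n) (ε : ℝ) : Prop where
  g1 : ∀ i, (C.deg i : ℝ) ≤ (1 / 3 + ε) * n
  g2 : (n : ℝ) ^ 2 / 3 ≤ ∑ i, (C.deg i : ℝ)
  g3 : ∑ l ∈ C.L, C.T l ≤ ε * (n : ℝ) ^ 2
  g4 : ∀ l ∈ C.L, (l.card : ℝ) ≤ (1 / 3 + ε) * n
  g5 : ∀ y : E, |∑ i, ip (C.u i) y ^ 2 - n / 3 * ‖y‖ ^ 2| ≤ ε * n * ‖y‖ ^ 2
  g6 : 1 ≤ ε * n

/-- Three clusters near the vectors of an orthonormal frame `e`. -/
structure Clu {n : ℕ} (C : Cfg n) (e : Fin 3 → E) (P : Fin 3 → Finset (Fin n)) (δ : ℝ) : Prop where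
  frame : ∀ a b, ip (e a) (e b) = if a = b then 1 else 0
  near : ∀ a, ∀ i ∈ P a, 1 - δ ≤ |ip (C.u i) (e a)|
  card : ∀ a, |((P a).card : ℝ) - n / 3| ≤ δ * n
  disj : ∀ a b, a ≠ b → Disjoint (P a) (P b)

/-- `tau s`: the sum of the square roots of the energies of the lines through `s`. -/
noncomputable def Cfg.tau {n : ℕ} (C : Cfg n) (s : Fin n) : ℝ :=
  ∑ l ∈ C.L.filter (fun l => s ∈ l), Real.sqrt (C.T l)

end H47.DR
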