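import Pool.Agent.H47.DR.Ang

/-!
# Module TauSum (about 50 lines)

Proof. Cauchy-Schwarz: `(∑_l |l| sqrt (T l))^2 ≤ (∑_l |l|^2) (∑_l T l) ≤ 2 n^2 ε n^2`
(`sum_card_sq`, `g3`), and `sqrt (2 ε) ≤ 2 sqrt ε`. `∑_s tau s = ∑_l |l| sqrt (T l)` (exchange of
sums, `Finset.sum_comm'` or `sum_filter`). `tau_count`: Markov with `∑ tau ≤ a n^2`.
-/

set_option autoImplicit false

namespace H47.DR

open Finset

variable {n : ℕ}

theorem sum_card_sqrt (C : Cfg n) (ε : ℝ) (hε : 0 ≤ ε) (h : Good C ε) :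
    ∑ l ∈ C.L, (l.card : ℝ) * Real.sqrt (C.T l) ≤ 2 * Real.sqrt ε * (n : ℝ) ^ 2 := by
  have h1 := Finset.sum_mul_sq_le_sq_mul_sq C.L (fun l => (l.card : ℝ))
    (fun l => Real.sqrt (C.T l))
  have h2 : ∑ l ∈ C.L, Real.sqrt (C.T l) ^ 2 = ∑ l ∈ C.L, C.T l :=
    Finset.sum_congr rfl fun l hl => Real.sq_sqrt (C.T_nonneg hl)
  have h3 := C.sum_card_sq
  have h4 := h.g3
  have h5 : 0 ≤ ∑ l ∈ C.L, C.T l := Finset.sum_nonneg fun l hl => C.T_nonneg hl
  have hn : (0 : ℝ) ≤ (n : ℝ) ^ 2 := by positivity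
  rw [h2] at h1
  have h6 : (∑ l ∈ C.L, (l.card : ℝ) * Real.sqrt (C.T l)) ^ 2 ≤
      (2 * Real.sqrt ε * (n : ℝ) ^ 2) ^ 2 := by
    calc (∑ l ∈ C.L, (l.card : ℝ) * Real.sqrt (C.T l)) ^ 2
        ≤ (∑ l ∈ C.L, (l.card : ℝ) ^ 2) * ∑ l ∈ C.L, C.T l := h1
      _ ≤ (2 * (n : ℝ) ^ 2) * (ε * (n : ℝ) ^ 2) :=
          mul_le_mul h3 h4 h5 (by positivity)
      _ ≤ 4 * ε * ((n : ℝ) ^ 2) ^ 2 := by nlinarith [mul_nonneg hε (mul_nonneg hn hn)]
      _ = (2 * Real.sqrt ε * (n : ℝ) ^ 2) ^ 2 := by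
          rw [mul_pow, mul_pow, Real.sq_sqrt hε]
          ring
  exact (pow_le_pow_iff_left₀
    (Finset.sum_nonneg fun l _ => mul_nonneg (Nat.cast_nonneg _) (Real.sqrt_nonneg _))
    (mul_nonneg (mul_nonneg (by norm_num) (Real.sqrt_nonneg _)) hn) two_ne_zero).1 h6

theorem Cfg.sum_tau (C : Cfg n) :
    ∑ s, C.tau s = ∑ l ∈ C.L, (l.card : ℝ) * Real.sqrt (C.T l) := by
  unfold Cfg.tau
  rw [Finset.sum_comm' (s := univ) (t := fun s => C.L.filter (fun l => s ∈ l))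
    (t' := C.L) (s' := fun l => l)]
  · exact Finset.sum_congr rfl fun l _ => by rw [Finset.sum_const, nsmul_eq_mul]
  · intro s l
    simp [and_comm]

theorem Cfg.tau_nonneg (C : Cfg n) (s : Fin n) : 0 ≤ C.tau s :=
  Finset.sum_nonneg fun _ _ => Real.sqrt_nonneg _

/-- Markov. -/
theorem Cfg.tau_count (C : Cfg n) (a : ℝ) (ha : 0 < a)
    (h : ∑ l ∈ C.L, (l.card : ℝ) * Real.sqrt (C.T l) ≤ a ^ 2 * (n : ℝ) ^ 2) :
    ((univ.filter (fun s => a * n < C.tau s)).card : ℝ) ≤ a * n := by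
  rcases Nat.eq_zero_or_pos n with hn | hn
  · subst hn
    have h1 : (univ.filter (fun s : Fin 0 => a * ((0 : ℕ) : ℝ) < C.tau s)) = ∅ := by
      ext s
      exact s.elim0
    rw [h1]
    simp
  · have hn' : (0 : ℝ) < (n : ℝ) := by exact_mod_cast hn
    have h1 : ((univ.filter (fun s => a * n < C.tau s)).card : ℝ) * (a * n) ≤ ∑ s, C.tau s := by
      calc ((univ.filter (fun s => a * n < C.tau s)).card : ℝ) * (a * n)
          = ∑ _s ∈ univ.filter (fun s => a * n < C.tau s), a * (n : ℝ) := by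
            rw [Finset.sum_const, nsmul_eq_mul]
        _ ≤ ∑ s ∈ univ.filter (fun s => a * n < C.tau s), C.tau s :=
            Finset.sum_le_sum fun s hs => ((mem_filter.1 hs).2).le
        _ ≤ ∑ s, C.tau s :=
            Finset.sum_le_sum_of_subset_of_nonneg (Finset.filter_subset _ _)
              fun s _ _ => C.tau_nonneg s
    rw [C.sum_tau] at h1
    have h2 : ((univ.filter (fun s => a * n < C.tau s)).card : ℝ) * (a * n) ≤
        (a * n) * (a * n) := by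
      calc _ ≤ _ := h1
        _ ≤ a ^ 2 * (n : ℝ) ^ 2 := h
        _ = (a * n) * (a * n) := by ring
    exact le_of_mul_le_mul_right h2 (mul_pos ha hn')

end H47.DR
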