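import Pool.Agent.H47.DR.Defs

/-!
# Module LSb (about 150 lines, pure finite combinatorics)

Basic facts on finite linear spaces. `C.ln i j` (`i ≠ j`) is the unique line through `i` and `j`.

* `ln_eq`: by `uniq` (a line containing `i` and `j` is `l`; conversely `l` is a line).
* `sum_through`: the lines through `i` partition the points `j ≠ i`
  (`Finset.sum_fiberwise`/`sum_biUnion`; `j` belongs to the fibre of the line `C.ln i j`).
* `sum_pairs`: sum of `sum_through` over `i`, then exchange the sums.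
* `deg_eq`: `sum_through` with `g j l = 1 / (card l - 1)`: a line `l` through `i` gives
  `(card l - 1) / (card l - 1) = 1`.
* `sum_deg`: exchange the sums.
* `sum_card_sq`: `sum_pairs` with `f = 1` gives `sum card l (card l - 1) = n (n-1)`, and
  `card l ^ 2 ≤ 2 card l (card l - 1)` because `card l ≥ 2`.
* `card_le_deg`: for a point `p` outside `l` the points of `l` are on different lines through `p`.
-/

set_option autoImplicit false

namespace H47.DR

open Finset

variable {n : ℕ}

theorem LS.ln_eq (C : LS n) {l : Finset (Fin n)} (hl : l ∈ C.L) {i j : Fin n} (hij : i ≠ j)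
    (hi : i ∈ l) (hj : j ∈ l) : C.ln i j = l := by
  ext k
  simp only [LS.ln, mem_filter, mem_univ, true_and]
  constructor
  · rintro ⟨l', hl', hi', hj', hk'⟩
    have := C.uniq l' hl' l hl i j hij hi' hj' hi hj
    rw [← this]
    exact hk'
  · intro hk
    exact ⟨l, hl, hi, hj, hk⟩

theorem LS.ln_mem (C : LS n) {i j : Fin n} (hij : i ≠ j) : C.ln i j ∈ C.L := by
  obtain ⟨l, hl, hi, hj⟩ := C.ex i j hij
  rw [C.ln_eq hl hij hi hj]
  exact hl

theorem LS.left_mem (C : LS n) {i j : Fin n} (hij : i ≠ j) : i ∈ C.ln i j := by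
  obtain ⟨l, hl, hi, hj⟩ := C.ex i j hij
  rw [C.ln_eq hl hij hi hj]
  exact hi

theorem LS.right_mem (C : LS n) {i j : Fin n} (hij : i ≠ j) : j ∈ C.ln i j := by
  obtain ⟨l, hl, hi, hj⟩ := C.ex i j hij
  rw [C.ln_eq hl hij hi hj]
  exact hj

theorem LS.ln_symm (C : LS n) (i j : Fin n) : C.ln i j = C.ln j i := by
  ext k
  simp only [LS.ln, mem_filter, mem_univ, true_and]
  constructor
  · rintro ⟨l', hl', hi', hj', hk'⟩
    exact ⟨l', hl', hj', hi', hk'⟩
  · rintro ⟨l', hl', hi', hj', hk'⟩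
    exact ⟨l', hl', hj', hi', hk'⟩

theorem LS.two_le_r (C : LS n) {i j : Fin n} (hij : i ≠ j) : 2 ≤ C.r i j :=
  C.two _ (C.ln_mem hij)

/-- The lines through `i` partition the other points. -/
theorem LS.sum_through (C : LS n) (i : Fin n) (g : Fin n → Finset (Fin n) → ℝ) :
    ∑ j ∈ univ.filter (fun j => j ≠ i), g j (C.ln i j)
      = ∑ l ∈ C.L.filter (fun l => i ∈ l), ∑ j ∈ l.filter (fun j => j ≠ i), g j l := by
  rw [← Finset.sum_fiberwise_of_maps_to (s := univ.filter (fun j => j ≠ i))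
    (t := C.L.filter (fun l => i ∈ l)) (g := fun j => C.ln i j)]
  · apply Finset.sum_congr rfl
    intro l hl
    rw [mem_filter] at hl
    have hset : (univ.filter (fun j => j ≠ i)).filter (fun j => C.ln i j = l)
        = l.filter (fun j => j ≠ i) := by
      ext j
      simp only [mem_filter, mem_univ, true_and]
      constructor
      · rintro ⟨hj, hjl⟩
        refine ⟨?_, hj⟩
        rw [← hjl]
        exact C.right_mem (Ne.symm hj)
      · rintro ⟨hjl, hj⟩
        exact ⟨hj, C.ln_eq hl.1 (Ne.symm hj) hl.2 hjl⟩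
    rw [← hset]
    apply Finset.sum_congr rfl
    intro j hj
    rw [mem_filter] at hj
    rw [hj.2]
  · intro j hj
    simp only [mem_filter, mem_univ, true_and] at hj ⊢
    exact ⟨C.ln_mem (Ne.symm hj), C.left_mem (Ne.symm hj)⟩

/-- Double counting of ordered pairs of different points. -/
theorem LS.sum_pairs (C : LS n) (f : Fin n → Fin n → Finset (Fin n) → ℝ) :
    ∑ i, ∑ j ∈ univ.filter (fun j => j ≠ i), f i j (C.ln i j)
      = ∑ l ∈ C.L, ∑ i ∈ l, ∑ j ∈ l.filter (fun j => j ≠ i), f i j l := by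
  rw [Finset.sum_congr rfl (fun i _ => C.sum_through i (f i))]
  rw [Finset.sum_comm' (s := univ) (t := fun i => C.L.filter (fun l => i ∈ l))
    (t' := C.L) (s' := fun l => l)]
  intro i l
  simp [and_comm]

theorem LS.deg_eq (C : LS n) (i : Fin n) :
    ∑ j ∈ univ.filter (fun j => j ≠ i), 1 / ((C.r i j : ℝ) - 1) = C.deg i := by
  have h := C.sum_through i (fun _ l => 1 / ((l.card : ℝ) - 1))
  unfold LS.r
  rw [h]
  rw [Finset.sum_congr rfl (g := fun _ => (1 : ℝ))]
  · simp [LS.deg]
  · intro l hl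
    rw [mem_filter] at hl
    have h2 := C.two l hl.1
    have hc : ((l.filter (fun j => j ≠ i)).card : ℝ) = (l.card : ℝ) - 1 := by
      have : l.filter (fun j => j ≠ i) = l.erase i := by
        ext j
        simp [and_comm]
      rw [this, Finset.card_erase_of_mem hl.2]
      rw [Nat.cast_sub (by omega)]
      simp
    rw [Finset.sum_const, nsmul_eq_mul, hc]
    have h3 : (2 : ℝ) ≤ l.card := by exact_mod_cast h2
    have h4 : (l.card : ℝ) - 1 ≠ 0 := by linarith
    field_simp

theorem LS.sum_deg (C : LS n) (a : Fin n → ℝ) :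
    ∑ i, a i * C.deg i = ∑ l ∈ C.L, ∑ i ∈ l, a i := by
  have h : ∀ i, a i * (C.deg i : ℝ) = ∑ l ∈ C.L.filter (fun l => i ∈ l), a i := by
    intro i
    rw [Finset.sum_const, nsmul_eq_mul, LS.deg, mul_comm]
  rw [Finset.sum_congr rfl (fun i _ => h i)]
  rw [Finset.sum_comm' (s := univ) (t := fun i => C.L.filter (fun l => i ∈ l))
    (t' := C.L) (s' := fun l => l)]
  intro i l
  simp [and_comm]

theorem LS.sum_card_sq (C : LS n) : ∑ l ∈ C.L, (l.card : ℝ) ^ 2 ≤ 2 * (n : ℝ) ^ 2 := by
  have h := C.sum_pairs (fun _ _ _ => (1 : ℝ))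
  have h1 : ∀ l ∈ C.L, ∑ i ∈ l, ∑ j ∈ l.filter (fun j => j ≠ i), (1 : ℝ)
      = (l.card : ℝ) * ((l.card : ℝ) - 1) := by
    intro l hl
    have h2 := C.two l hl
    rw [Finset.sum_congr rfl (g := fun _ => (l.card : ℝ) - 1)]
    · rw [Finset.sum_const, nsmul_eq_mul]
    · intro i hi
      have : l.filter (fun j => j ≠ i) = l.erase i := by
        ext j
        simp [and_comm]
      rw [this, Finset.sum_const, nsmul_eq_mul, Finset.card_erase_of_mem hi]
      rw [Nat.cast_sub (by omega)]
      simp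
  have h3 : ∑ i : Fin n, ∑ j ∈ univ.filter (fun j => j ≠ i), (1 : ℝ) ≤ (n : ℝ) ^ 2 := by
    calc ∑ i : Fin n, ∑ j ∈ univ.filter (fun j => j ≠ i), (1 : ℝ)
        ≤ ∑ i : Fin n, ∑ j : Fin n, (1 : ℝ) := by
          apply Finset.sum_le_sum
          intro i _
          apply Finset.sum_le_sum_of_subset_of_nonneg (Finset.filter_subset _ _)
          intro _ _ _
          norm_num
      _ = (n : ℝ) ^ 2 := by
          simp
          ring
  rw [h, Finset.sum_congr rfl h1] at h3
  calc ∑ l ∈ C.L, (l.card : ℝ) ^ 2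
      ≤ ∑ l ∈ C.L, 2 * ((l.card : ℝ) * ((l.card : ℝ) - 1)) := by
        apply Finset.sum_le_sum
        intro l hl
        have h2 : (2 : ℝ) ≤ l.card := by exact_mod_cast C.two l hl
        nlinarith
    _ = 2 * ∑ l ∈ C.L, ((l.card : ℝ) * ((l.card : ℝ) - 1)) := by rw [Finset.mul_sum]
    _ ≤ 2 * (n : ℝ) ^ 2 := by linarith

theorem LS.card_le_deg (C : LS n) {l : Finset (Fin n)} (hl : l ∈ C.L) {p : Fin n} (hp : p ∉ l) :
    l.card ≤ C.deg p := by
  unfold LS.deg
  apply Finset.card_le_card_of_injOn (fun j => C.ln p j)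
  · intro j hj
    have hpj : p ≠ j := fun h => hp (h ▸ hj)
    have := C.ln_mem hpj
    have h2 := C.left_mem hpj
    simp only [coe_filter, Set.mem_ofPred_eq]
    exact ⟨this, h2⟩
  · intro j hj k hk hjk
    by_contra hne
    have hpj : p ≠ j := fun h => hp (h ▸ hj)
    have hpk : p ≠ k := fun h => hp (h ▸ hk)
    have h1 := C.right_mem hpj
    have h2 := C.right_mem hpk
    simp only at hjk
    rw [← hjk] at h2
    have h3 := C.uniq l hl (C.ln p j) (C.ln_mem hpj) j k hne hj hk h1 h2
    apply hp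
    rw [h3]
    exact C.left_mem hpj

end H47.DR
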