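import Pool.Agent.H47.DR.Defs

/-!
# `Good` and `Clu` are monotone
-/

set_option autoImplicit false

namespace H47.DR

open Finset

variable {n : ℕ}

theorem Good.mono {C : Cfg n} {ε ε' : ℝ} (h : Good C ε) (hle : ε ≤ ε') : Good C ε' := by
  have hn : (0 : ℝ) ≤ (n : ℝ) := by positivity
  refine ⟨?_, h.g2, ?_, ?_, ?_, ?_⟩
  · intro i
    exact (h.g1 i).trans (mul_le_mul_of_nonneg_right (by linarith) hn)
  · exact h.g3.trans (mul_le_mul_of_nonneg_right hle (by positivity))
  · intro l hl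
    exact (h.g4 l hl).trans (mul_le_mul_of_nonneg_right (by linarith) hn)
  · intro y
    exact (h.g5 y).trans
      (mul_le_mul_of_nonneg_right (mul_le_mul_of_nonneg_right hle hn) (by positivity))
  · exact h.g6.trans (mul_le_mul_of_nonneg_right hle hn)

theorem Clu.mono {C : Cfg n} {e : Fin 3 → E} {P : Fin 3 → Finset (Fin n)} {δ δ' : ℝ}
    (h : Clu C e P δ) (hle : δ ≤ δ') : Clu C e P δ' := by
  have hn : (0 : ℝ) ≤ (n : ℝ) := by positivity
  refine ⟨h.frame, ?_, ?_, h.disj⟩
  · intro a i hi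
    have := h.near a i hi
    linarith
  · intro a
    exact (h.card a).trans (mul_le_mul_of_nonneg_right hle hn)

theorem Good.n_pos {C : Cfg n} {ε : ℝ} (h : Good C ε) : 0 < n := by
  rcases Nat.eq_zero_or_pos n with h0 | h0
  · have := h.g6
    rw [h0] at this
    norm_num at this
  · exact h0

theorem Good.eps_pos {C : Cfg n} {ε : ℝ} (h : Good C ε) : 0 < ε := by
  have hn : (0 : ℝ) < (n : ℝ) := by exact_mod_cast h.n_pos
  have := h.g6
  by_contra hcon
  have h1 : ε * (n : ℝ) ≤ 0 := mul_nonpos_of_nonpos_of_nonneg (not_lt.1 hcon) hn.le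
  linarith

end H47.DR
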