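import Pool.Agent.H47.DR.Defs
import Pool.Agent.H66.Iso.Low
import Pool.Agent.H66.Iso.Pos

/-!
# Module IsoPos (about 150 lines)

Isotropic position for integer weights, from `H66.Iso.low` and `H66.Iso.iso_pos` (please look at
their statements in Pool/Agent/H66/Iso/Low.lean and Pos.lean; `H66.Iso.V = Fin 3 → ℝ`).

Proof. Apply them to the index type `(i : Fin n) × Fin (w i)` (cardinality `W = ∑ w i`) and the
vectors `v (i, a) = (u i : Fin 3 → ℝ)`. Condition `h1`: `{(i,a) : v (i,a) ∈ span {x}}` has at most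
`w i` elements for one `i` (if `u i, u j ∈ span {x}` with `i ≠ j` then `|ip (u i) (u j)| = 1`,
contradiction to `indep`), so `3 w i ≤ W`. Condition `h2`: if all the `u i` in `span {x, y}` are one
or none, use `h1`; otherwise two of them, `i ≠ j`, are in `span {x, y}`, which is the plane of the
line `l = ` line through `i` and `j` (its normal `ν` is orthogonal to `u i`, `u j` and so to
`x`, `y`), so all of them are in `l` and the number is `∑_{i ∈ l} w i ≤ 2 W/3`.
We get a positive definite `X` with `∑_i w i (qf X (u i) y)^2 / qf X (u i) (u i)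
≤ (W/3 + e) qf X y y` for all `y`. Write `X = Bᴴ * B` (`Matrix.posSemidef_iff_eq_conjTranspose_mul_self`
or the square root) with `B` invertible and let `g` be the linear equivalence `B` (on
`EuclideanSpace`, `Matrix.toEuclideanLin` or `toLpLin`); then `ip (g x) (g y) = qf X x y`; every vector
of `E` is `g y`, and the claim for `z = g y` is the inequality.
-/

set_option autoImplicit false

namespace H47.DR

open Finset

variable {n : ℕ}

open Matrix in
private theorem isoPos_ip (x y : E) : ip x y = x.ofLp ⬝ᵥ y.ofLp := by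
  simp [ip, EuclideanSpace.inner_eq_star_dotProduct, dotProduct_comm]

open Matrix in
open scoped MatrixOrder Matrix.Norms.L2Operator in
private theorem isoPos_factor (X : Matrix (Fin 3) (Fin 3) ℝ) (hX : X.PosDef) :
    ∃ B : Matrix (Fin 3) (Fin 3) ℝ, X = Bᴴ * B := by
  obtain ⟨B, hB⟩ := CStarAlgebra.nonneg_iff_eq_star_mul_self.mp hX.posSemidef.nonneg
  exact ⟨B, hB⟩

open Matrix in
private theorem isoPos_g (X : Matrix (Fin 3) (Fin 3) ℝ) (hX : X.PosDef) :
    ∃ g : E ≃ₗ[ℝ] E, ∀ x y : E, ip (g x) (g y) = H66.Iso.qf X x.ofLp y.ofLp := by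
  obtain ⟨B, hB⟩ := isoPos_factor X hX
  let f : E →ₗ[ℝ] E := (WithLp.linearEquiv 2 ℝ (Fin 3 → ℝ)).symm.toLinearMap ∘ₗ
    (Matrix.toLin' B) ∘ₗ (WithLp.linearEquiv 2 ℝ (Fin 3 → ℝ)).toLinearMap
  have hf : ∀ x : E, (f x).ofLp = B *ᵥ x.ofLp := fun x => rfl
  have hip : ∀ x y : E, ip (f x) (f y) = H66.Iso.qf X x.ofLp y.ofLp := by
    intro x y
    rw [isoPos_ip, hf, hf]
    unfold H66.Iso.qf
    rw [hB, ← mulVec_mulVec, dotProduct_mulVec x.ofLp, vecMul_conjTranspose, star_trivial,
      star_trivial]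
  have hinj : Function.Injective f := by
    rw [injective_iff_map_eq_zero]
    intro x hx
    have h1 := hip x x
    rw [hx] at h1
    have h2 : ip (0 : E) 0 = 0 := by simp [ip]
    rw [h2] at h1
    by_contra hne
    have h3 : x.ofLp ≠ 0 := by
      intro h4
      exact hne (by ext i; exact congrFun h4 i)
    have := H66.Iso.qf_pos hX h3
    linarith
  exact ⟨LinearEquiv.ofInjectiveEndo f hinj, fun x y => by
    have := hip x y
    simpa using this⟩

open Matrix in
private theorem isoPos_indep {x y : Fin 3 → ℝ} (hx : x ⬝ᵥ x = 1) (hy : y ⬝ᵥ y = 1)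
    (hxy : |x ⬝ᵥ y| < 1) : LinearIndependent ℝ ![x, y] := by
  rw [LinearIndependent.pair_iff]
  intro s t h
  have h1 : s + t * (x ⬝ᵥ y) = 0 := by
    have := congrArg (fun z => x ⬝ᵥ z) h
    simpa [dotProduct_add, hx] using this
  have h2 : s * (x ⬝ᵥ y) + t = 0 := by
    have := congrArg (fun z => y ⬝ᵥ z) h
    simpa [dotProduct_add, hy, dotProduct_comm y x] using this
  have h3 : (x ⬝ᵥ y) ^ 2 < 1 := by
    have := (abs_lt.1 hxy)
    nlinarith
  have h4 : t * (1 - (x ⬝ᵥ y) ^ 2) = 0 := by linear_combination h2 - (x ⬝ᵥ y) * h1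
  have h5 : t = 0 := by
    rcases mul_eq_zero.1 h4 with h | h
    · exact h
    · linarith
  refine ⟨?_, h5⟩
  rw [h5] at h1
  linarith

private theorem isoPos_not_span1 {x y z : Fin 3 → ℝ} (h : LinearIndependent ℝ ![x, y])
    (hx : x ∈ Submodule.span ℝ {z}) (hy : y ∈ Submodule.span ℝ {z}) : False := by
  rw [Submodule.mem_span_singleton] at hx hy
  obtain ⟨a, rfl⟩ := hx
  obtain ⟨b, rfl⟩ := hy
  rw [LinearIndependent.pair_iff] at h
  by_cases ha : a = 0
  · have := h 1 0 (by rw [ha]; simp)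
    exact one_ne_zero this.1
  · have := h (-b) a (by rw [smul_smul, smul_smul, ← add_smul]; simp [mul_comm])
    exact ha this.2

private theorem isoPos_span2 {x y z w : Fin 3 → ℝ} (h : LinearIndependent ℝ ![x, y])
    (hx : x ∈ Submodule.span ℝ {z, w}) (hy : y ∈ Submodule.span ℝ {z, w}) :
    Submodule.span ℝ {x, y} = Submodule.span ℝ {z, w} := by
  refine Submodule.eq_of_le_of_finrank_le ?_ ?_
  · rw [Submodule.span_le]
    rintro a (rfl | rfl)
    · exact hx
    · exact hy
  · have h1 := finrank_span_eq_card h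
    have h2 : Set.range ![x, y] = {x, y} := by
      ext a
      simp [or_comm, eq_comm]
    rw [h2] at h1
    rw [h1]
    have h3 := finrank_span_finset_le_card (R := ℝ) ({z, w} : Finset (Fin 3 → ℝ))
    rw [Finset.coe_pair] at h3
    refine le_trans h3 ?_
    rw [Fintype.card_fin]
    exact Finset.card_le_two

open Classical in
open Matrix in
theorem Cfg.isoPos (C : Cfg n) (w : Fin n → ℕ) (h1 : ∀ i, 3 * w i ≤ ∑ j, w j)
    (h2 : ∀ l ∈ C.L, 3 * ∑ i ∈ l, w i ≤ 2 * ∑ j, w j) (e : ℝ) (he : 0 < e) :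
    ∃ g : E ≃ₗ[ℝ] E, ∀ z : E,
      ∑ i, (w i : ℝ) * ip ((‖g (C.u i)‖)⁻¹ • g (C.u i)) z ^ 2
        ≤ ((∑ i, (w i : ℝ)) / 3 + e) * ‖z‖ ^ 2 := by
  let v : ((i : Fin n) × Fin (w i)) → H66.Iso.V := fun a => (C.u a.1).ofLp
  have hunit : ∀ i, (C.u i).ofLp ⬝ᵥ (C.u i).ofLp = 1 := by
    intro i
    rw [← isoPos_ip]
    show inner ℝ (C.u i) (C.u i) = 1
    rw [real_inner_self_eq_norm_sq, C.unit i]
    norm_num
  have hli : ∀ i j, i ≠ j → LinearIndependent ℝ ![(C.u i).ofLp, (C.u j).ofLp] := by
    intro i j hij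
    refine isoPos_indep (hunit i) (hunit j) ?_
    rw [← isoPos_ip]
    exact C.indep i j hij
  have hcard : Fintype.card ((i : Fin n) × Fin (w i)) = ∑ j, w j := by
    simp
  have hfib : ∀ i : Fin n, (univ.filter fun a : (i : Fin n) × Fin (w i) => a.1 = i).card = w i := by
    intro i
    have : (univ.filter fun a : (i : Fin n) × Fin (w i) => a.1 = i) =
        (univ : Finset (Fin (w i))).map ⟨fun b => ⟨i, b⟩, fun b c h => by simpa using h⟩ := by
      ext ⟨j, b⟩
      simp only [mem_filter, mem_univ, true_and, mem_map, Function.Embedding.coeFn_mk]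
      constructor
      · rintro rfl
        exact ⟨b, rfl⟩
      · rintro ⟨c, hc⟩
        exact (congrArg Sigma.fst hc).symm
    rw [this, card_map, card_univ, Fintype.card_fin]
  have hone : ∀ T : Finset ((i : Fin n) × Fin (w i)),
      (∀ a ∈ T, ∀ b ∈ T, a.1 = b.1) → 3 * T.card ≤ ∑ j, w j := by
    intro T hT
    rcases T.eq_empty_or_nonempty with rfl | ⟨a, ha⟩
    · simp
    · have : T ⊆ univ.filter fun b : (i : Fin n) × Fin (w i) => b.1 = a.1 := by
        intro b hb
        rw [mem_filter]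
        exact ⟨mem_univ _, hT b hb a ha⟩
      have h3 := card_le_card this
      rw [hfib] at h3
      exact (Nat.mul_le_mul_left 3 h3).trans (h1 a.1)
  obtain ⟨X, hX, hXi⟩ := H66.Iso.iso_pos v
    (fun a h => by
      have h3 := hunit a.1
      have h4 : (C.u a.1).ofLp = 0 := h
      rw [h4] at h3
      simp at h3)
    (H66.Iso.low v
      (fun a h => by
        have h3 := hunit a.1
        have h4 : (C.u a.1).ofLp = 0 := h
        rw [h4] at h3
        simp at h3)
      (fun x => by
        rw [hcard]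
        refine hone _ fun a ha b hb => ?_
        rw [mem_filter] at ha hb
        by_contra hab
        exact isoPos_not_span1 (hli a.1 b.1 hab) ha.2 hb.2)
      (fun x y => by
        rw [hcard]
        by_cases hT : ∀ a ∈ (univ.filter fun i => v i ∈ Submodule.span ℝ {x, y}),
            ∀ b ∈ (univ.filter fun i => v i ∈ Submodule.span ℝ {x, y}), a.1 = b.1
        · have := hone _ hT
          omega
        · push Not at hT
          obtain ⟨a, ha, b, hb, hab⟩ := hT
          rw [mem_filter] at ha hb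
          have hsp := isoPos_span2 (hli a.1 b.1 hab) ha.2 hb.2
          obtain ⟨l, hl, hal, hbl⟩ := C.ex a.1 b.1 hab
          obtain ⟨ν, hν, hνl⟩ := C.nu l hl
          have hsub : (univ.filter fun i => v i ∈ Submodule.span ℝ {x, y}) ⊆
              l.biUnion fun i => univ.filter fun c : (i : Fin n) × Fin (w i) => c.1 = i := by
            intro c hc
            rw [mem_filter, ← hsp] at hc
            rw [mem_biUnion]
            refine ⟨c.1, ?_, by simp⟩
            rw [hνl, isoPos_ip]
            have ha1 := (hνl a.1).1 hal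
            have hb1 := (hνl b.1).1 hbl
            rw [isoPos_ip] at ha1 hb1
            obtain ⟨s, t, hst⟩ := Submodule.mem_span_pair.1 hc.2
            have hc1 : (C.u c.1).ofLp = s • (C.u a.1).ofLp + t • (C.u b.1).ofLp := hst.symm
            rw [hc1, add_dotProduct, smul_dotProduct, smul_dotProduct, ha1, hb1]
            simp
          have h3 := (card_le_card hsub).trans card_biUnion_le
          simp only [hfib] at h3
          have h4 := h2 l hl
          omega)) e he
  obtain ⟨g, hg⟩ := isoPos_g X hX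
  refine ⟨g, fun z => ?_⟩
  obtain ⟨y, rfl⟩ := g.surjective z
  have hnorm : ∀ x : E, ‖g x‖ ^ 2 = H66.Iso.qf X x.ofLp x.ofLp := by
    intro x
    rw [← hg, ← real_inner_self_eq_norm_sq]
  have h3 := hXi y.ofLp
  rw [Fintype.sum_sigma, hcard] at h3
  have h4 : ∀ i, (w i : ℝ) * ip ((‖g (C.u i)‖)⁻¹ • g (C.u i)) (g y) ^ 2 =
      ∑ a : Fin (w i), H66.Iso.qf X (v ⟨i, a⟩) y.ofLp ^ 2 / H66.Iso.qf X (v ⟨i, a⟩) (v ⟨i, a⟩) := by
    intro i
    have h5 : ip ((‖g (C.u i)‖)⁻¹ • g (C.u i)) (g y) = (‖g (C.u i)‖)⁻¹ * ip (g (C.u i)) (g y) := by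
      simp only [ip, real_inner_smul_left]
    simp only [v]
    rw [sum_const, card_univ, Fintype.card_fin, nsmul_eq_mul, h5, hg, mul_pow, inv_pow, hnorm]
    ring
  simp only [h4]
  rw [hnorm]
  push_cast at h3
  exact h3

end H47.DR
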