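import Pool.Agent.H47.DR.LSb

/-!
# Module Move (about 90 lines)

A linear automorphism `g` of `E` moves a configuration: same lines, new unit vectors
`(‖g (u i)‖)⁻¹ • g (u i)`.

Proof. `g (u i) ≠ 0`. `indep`: if `|ip u'_i u'_j| = 1` then (equality in Cauchy-Schwarz) `u'_i = ± u'_j`,
so `u i` and `u j` are proportional, and unit, so `|ip (u i) (u j)| = 1`, contradiction.
`nu`: for the normal `ν` of the line `l` the vector `(g⁻¹)ᵗ ν` (the adjoint of `g.symm` applied to
`ν`), normalised, works: `ip (g x) ((g⁻¹)ᵗ ν) = ip x ν`.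
-/

set_option autoImplicit false

namespace H47.DR

open Finset

variable {n : ℕ}

private lemma move_abs_lt {x y : E} (hx : ‖x‖ = 1) (hy : ‖y‖ = 1)
    (h : ∀ r : ℝ, r ≠ 0 → y ≠ r • x) : |ip x y| < 1 := by
  have h1 : |ip x y| ≤ 1 := by
    have := abs_real_inner_le_norm x y
    rwa [hx, hy, one_mul] at this
  refine lt_of_le_of_ne h1 ?_
  intro h2
  have hx0 : x ≠ 0 := by
    intro h0
    rw [h0, norm_zero] at hx
    exact zero_ne_one hx
  have h3 : ‖(inner ℝ x y : ℝ)‖ = ‖x‖ * ‖y‖ := by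
    rw [hx, hy, Real.norm_eq_abs]
    simpa using h2
  have hy0 : y ≠ 0 := by
    intro h0
    rw [h0, norm_zero] at hy
    exact zero_ne_one hy
  have h4 := (norm_inner_eq_norm_iff (𝕜 := ℝ) hx0 hy0).1 h3
  obtain ⟨r, hr, hr2⟩ := h4
  exact h r hr hr2

theorem Cfg.move (C : Cfg n) (g : E ≃ₗ[ℝ] E) :
    ∃ C' : Cfg n, C'.toLS = C.toLS ∧ ∀ i, C'.u i = (‖g (C.u i)‖)⁻¹ • g (C.u i) := by
  have hu0 : ∀ i, C.u i ≠ 0 := by
    intro i h0
    have := C.unit i
    rw [h0, norm_zero] at this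
    exact zero_ne_one this
  have hg0 : ∀ i, g (C.u i) ≠ 0 := by
    intro i h0
    exact hu0 i ((LinearEquiv.map_eq_zero_iff g).1 h0)
  have hn : ∀ i, ‖g (C.u i)‖ ≠ 0 := fun i => norm_ne_zero_iff.2 (hg0 i)
  have hun : ∀ i, ‖(‖g (C.u i)‖)⁻¹ • g (C.u i)‖ = 1 := by
    intro i
    rw [norm_smul, norm_inv, norm_norm, inv_mul_cancel₀ (hn i)]
  refine ⟨{ C.toLS with
    u := fun i => (‖g (C.u i)‖)⁻¹ • g (C.u i)
    unit := hun
    indep := ?_
    nu := ?_ }, rfl, fun i => rfl⟩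
  · intro i j hij
    apply move_abs_lt (hun i) (hun j)
    intro r hr he
    -- `g (u j)` is a multiple of `g (u i)`
    have h1 : g (C.u j) = (‖g (C.u j)‖ * r * (‖g (C.u i)‖)⁻¹) • g (C.u i) := by
      have h2 : g (C.u j) = ‖g (C.u j)‖ • ((‖g (C.u j)‖)⁻¹ • g (C.u j)) := by
        rw [smul_smul, mul_inv_cancel₀ (hn j), one_smul]
      rw [he, smul_smul, smul_smul] at h2
      exact h2
    rw [← map_smul] at h1
    have h3 := g.injective h1
    have h4 := C.indep i j hij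
    set t := ‖g (C.u j)‖ * r * (‖g (C.u i)‖)⁻¹ with ht
    have h5 : ‖C.u j‖ = |t| * ‖C.u i‖ := by
      rw [h3, norm_smul, Real.norm_eq_abs]
    rw [C.unit i, C.unit j, mul_one] at h5
    have h6 : ip (C.u i) (C.u j) = t := by
      show inner ℝ (C.u i) (C.u j) = t
      rw [h3, inner_smul_right, real_inner_self_eq_norm_sq, C.unit i]
      ring
    rw [h6, ← h5] at h4
    exact lt_irrefl _ h4
  · intro l hl
    obtain ⟨ν, hν1, hν⟩ := C.nu l hl
    set μ : E := LinearMap.adjoint (g.symm : E →ₗ[ℝ] E) ν with hμ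
    have hip : ∀ x : E, ip (g x) μ = ip x ν := by
      intro x
      show inner ℝ (g x) μ = inner ℝ x ν
      rw [hμ, LinearMap.adjoint_inner_right]
      simp
    have hμ0 : μ ≠ 0 := by
      intro h0
      have h1 := hip ν
      rw [h0] at h1
      have h2 : ip ν ν = 0 := by
        rw [← h1]
        show inner ℝ (g ν) (0 : E) = 0
        rw [inner_zero_right]
      have h3 : ip ν ν = 1 := by
        show inner ℝ ν ν = 1
        rw [real_inner_self_eq_norm_sq, hν1]
        norm_num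
      rw [h3] at h2
      exact one_ne_zero h2
    have hμn : ‖μ‖ ≠ 0 := norm_ne_zero_iff.2 hμ0
    refine ⟨(‖μ‖)⁻¹ • μ, ?_, ?_⟩
    · rw [norm_smul, norm_inv, norm_norm, inv_mul_cancel₀ hμn]
    · intro i
      have h1 : ip ((‖g (C.u i)‖)⁻¹ • g (C.u i)) ((‖μ‖)⁻¹ • μ)
          = (‖μ‖)⁻¹ * ((‖g (C.u i)‖)⁻¹ * ip (C.u i) ν) := by
        rw [← hip (C.u i)]
        show inner ℝ ((‖g (C.u i)‖)⁻¹ • g (C.u i)) ((‖μ‖)⁻¹ • μ) = _
        rw [inner_smul_right, real_inner_smul_left]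
      rw [h1, hν i]
      constructor
      · intro h2
        rw [h2]
        ring
      · intro h2
        rcases mul_eq_zero.1 h2 with h3 | h3
        · exact absurd h3 (inv_ne_zero hμn)
        · rcases mul_eq_zero.1 h3 with h4 | h4
          · exact absurd h4 (inv_ne_zero (hn i))
          · exact h4

end H47.DR
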