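import Pool.Agent.H47.DR.Ident
import Pool.Agent.H47.DR.Move
import Pool.Agent.H47.DR.IsoPos

/-!
# Module Step0 (about 130 lines)

A configuration without point on `(1/3 + ε) n` lines can be moved to a `Good` one.

Proof. `|l| ≤ deg p ≤ (1/3 + ε) n < 2 n / 3` for every line `l` and a point `p` outside it
(`card_le_deg`), and `3 ≤ n`. Apply `isoPos` with `w = 1`, `e = 1/4`, and `move`: `C` with the same
lines and `∑_i ip (u i) z ^ 2 ≤ (n/3 + 1/4) ‖z‖ ^ 2`. Then `∑_{i,j} ip^2 ≤ n (n/3 + 1/4)`, and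
`ident1` (with `T_nonneg`) gives `∑ deg ≥ n^2/3 + n/2` (this is `g2`), so some `deg i ≥ n/3 + 1/2` and so
`ε n > 1/2`: `g6`. `g1`, `g4` are clear. `g3`: `∑ T = ∑ deg - n^2 - n + 2 ∑ ip^2
≤ (1/3 + ε) n^2 - n^2 - n + 2 n (n/3 + 1/4) ≤ ε n^2`. `g5`: the upper bound is clear
(`1/4 ≤ ε n`); lower bound: for a unit vector `y` complete to an orthonormal basis `y, y', y''`:
`∑_i ip (u i) y ^ 2 = n - ∑_i ip (u i) y' ^ 2 - ∑_i ip (u i) y'' ^ 2 ≥ n/3 - 1/2`, and `1/2 ≤ 2 ε n`;
general `y` by homogeneity.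
-/

set_option autoImplicit false

namespace H47.DR

open Finset

variable {n : ℕ}

theorem step0 (hn : 3 ≤ n) (C0 : Cfg n) (hl : ∀ l ∈ C0.L, ∃ i, i ∉ l) (ε : ℝ) (h0 : 0 < ε)
    (h1 : ε ≤ 1 / 10) (hd : ∀ i, (C0.deg i : ℝ) < (1 / 3 + ε) * n) :
    ∃ C : Cfg n, Good C (2 * ε) := by
  have hN : (3 : ℝ) ≤ n := by exact_mod_cast hn
  have hcard : ∀ l ∈ C0.L, (l.card : ℝ) < (1 / 3 + ε) * n := by
    intro l hlL
    obtain ⟨p, hp⟩ := hl l hlL
    have h2 : l.card ≤ C0.deg p := C0.card_le_deg hlL hp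
    have h3 : (l.card : ℝ) ≤ C0.deg p := by exact_mod_cast h2
    exact lt_of_le_of_lt h3 (hd p)
  obtain ⟨g, hg⟩ := C0.isoPos (fun _ => 1) (by
      intro i
      simpa using hn) (by
      intro l hlL
      have h2 := hcard l hlL
      have h3 : (3 : ℝ) * l.card ≤ 2 * n := by nlinarith
      have h4 : 3 * l.card ≤ 2 * n := by exact_mod_cast h3
      simpa using h4) (1 / 4) (by norm_num)
  obtain ⟨C, hC, hu⟩ := C0.move g
  have hCL : C.L = C0.L := by rw [hC]
  have hCd : ∀ i, C.deg i = C0.deg i := by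
    intro i
    change C.toLS.deg i = C0.toLS.deg i
    rw [hC]
  have H : ∀ z : E, ∑ i, ip (C.u i) z ^ 2 ≤ ((n : ℝ) / 3 + 1 / 4) * ‖z‖ ^ 2 := by
    intro z
    have h2 := hg z
    simp only [Nat.cast_one, one_mul, sum_const, card_univ, Fintype.card_fin, nsmul_eq_mul,
      mul_one] at h2
    simpa only [hu] using h2
  have hS : ∑ i, ∑ j, ip (C.u i) (C.u j) ^ 2 ≤ (n : ℝ) * ((n : ℝ) / 3 + 1 / 4) := by
    calc ∑ i, ∑ j, ip (C.u i) (C.u j) ^ 2 ≤ ∑ i : Fin n, ((n : ℝ) / 3 + 1 / 4) := by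
          refine sum_le_sum fun i _ => ?_
          have h2 := H (C.u i)
          rw [C.unit i] at h2
          calc ∑ j, ip (C.u i) (C.u j) ^ 2 = ∑ j, ip (C.u j) (C.u i) ^ 2 := by
                refine sum_congr rfl fun j _ => ?_
                rw [ip, real_inner_comm]
            _ ≤ _ := by simpa using h2
      _ = (n : ℝ) * ((n : ℝ) / 3 + 1 / 4) := by
          rw [sum_const, card_univ, Fintype.card_fin, nsmul_eq_mul]
  have hT : 0 ≤ ∑ l ∈ C.L, C.T l := sum_nonneg fun l hl => C.T_nonneg hl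
  have hid := C.ident1
  have hdeg : ∀ i, (C.deg i : ℝ) < (1 / 3 + ε) * n := by
    intro i
    rw [hCd i]
    exact hd i
  have hsum : ∑ i, (C.deg i : ℝ) ≤ (n : ℝ) * ((1 / 3 + ε) * n) := by
    calc ∑ i, (C.deg i : ℝ) ≤ ∑ i : Fin n, (1 / 3 + ε) * (n : ℝ) :=
          sum_le_sum fun i _ => (hdeg i).le
      _ = (n : ℝ) * ((1 / 3 + ε) * n) := by
          rw [sum_const, card_univ, Fintype.card_fin, nsmul_eq_mul]
  have h6 : 1 ≤ 2 * ε * n := by
    have h7 : (n : ℝ) * (1 / 2) ≤ n * (ε * n) := by nlinarith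
    have h8 := le_of_mul_le_mul_left h7 (by linarith)
    linarith
  refine ⟨C, ?_, ?_, ?_, ?_, ?_, h6⟩
  · intro i
    have := hdeg i
    nlinarith
  · nlinarith
  · nlinarith
  · intro l hl'
    rw [hCL] at hl'
    have := hcard l hl'
    nlinarith
  · intro y
    rw [abs_le]
    have hy0 : 0 ≤ ‖y‖ ^ 2 := by positivity
    constructor
    · have h7 : ((n : ℝ) / 3 - 1 / 2) * ‖y‖ ^ 2 ≤ ∑ i, ip (C.u i) y ^ 2 := by
        by_cases hy : y = 0
        · subst hy
          simp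
        · have hyn : ‖y‖ ≠ 0 := norm_ne_zero_iff.2 hy
          obtain ⟨b, hb⟩ := Orthonormal.exists_orthonormalBasis_extension_of_card_eq (𝕜 := ℝ)
            (E := E) (ι := Fin 3) (by simp) (v := fun _ => (‖y‖)⁻¹ • y) (s := {0}) (by
              refine ⟨fun i => ?_, fun i j hij => ?_⟩
              · change ‖(‖y‖)⁻¹ • y‖ = 1
                rw [norm_smul, norm_inv, norm_norm, inv_mul_cancel₀ hyn]
              · exact absurd (Subtype.ext (i.2.trans j.2.symm)) hij)
          have hb0 : b 0 = (‖y‖)⁻¹ • y := hb 0 rfl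
          have hx : ∀ i, ip (C.u i) (b 0) ^ 2 + ip (C.u i) (b 1) ^ 2 + ip (C.u i) (b 2) ^ 2 = 1 := by
            intro i
            have h8 := b.sum_sq_norm_inner_left (C.u i)
            rw [Fin.sum_univ_three, C.unit i] at h8
            simpa only [Real.norm_eq_abs, sq_abs, one_pow] using h8
          have hs : ∑ i, ip (C.u i) (b 0) ^ 2 + ∑ i, ip (C.u i) (b 1) ^ 2 +
              ∑ i, ip (C.u i) (b 2) ^ 2 = n := by
            rw [← sum_add_distrib, ← sum_add_distrib, sum_congr rfl fun i _ => hx i]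
            simp
          have hb1 := H (b 1)
          have hb2 := H (b 2)
          rw [b.norm_eq_one] at hb1 hb2
          have h9 : (n : ℝ) / 3 - 1 / 2 ≤ ∑ i, ip (C.u i) (b 0) ^ 2 := by linarith
          have h10 : ∑ i, ip (C.u i) (b 0) ^ 2 * ‖y‖ ^ 2 = ∑ i, ip (C.u i) y ^ 2 := by
            refine sum_congr rfl fun i _ => ?_
            rw [hb0, ip, real_inner_smul_right]
            field_simp
          rw [← h10, ← sum_mul]
          exact mul_le_mul_of_nonneg_right h9 hy0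
      nlinarith
    · have h7 := H y
      nlinarith

end H47.DR
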