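import Pool.Agent.H47.DR.Plane
import Pool.Agent.H47.DR.Step0
import Pool.Agent.H47.DR.GoodMono

/-!
# The theorem on planar point sets from the nonexistence of near extremal configurations
-/

set_option autoImplicit false

namespace H47.DR

open Finset

theorem final (h : ∃ ε : ℝ, 0 < ε ∧ ∀ (n : ℕ) (C : Cfg n), ¬ Good C ε) :
    ∃ ε : ℝ, 0 < ε ∧ ∀ S : Finset (EuclideanSpace ℝ (Fin 2)),
      ¬ Collinear ℝ (S : Set (EuclideanSpace ℝ (Fin 2))) →
        ∃ p ∈ S, (1 / 3 + ε) * (S.card : ℝ) ≤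
          (({L : AffineSubspace ℝ (EuclideanSpace ℝ (Fin 2)) |
              ∃ q ∈ S, q ≠ p ∧ L = affineSpan ℝ {p, q}}.ncard : ℕ) : ℝ) := by
  obtain ⟨ε, hε, hno⟩ := h
  have hδ0 : 0 < min (ε / 2) (1 / 10) := lt_min (by linarith) (by norm_num)
  refine ⟨min (ε / 2) (1 / 10), hδ0, fun S hS => ?_⟩
  obtain ⟨h3, C, hl, hd⟩ := plane S hS
  by_contra hcon
  push Not at hcon
  obtain ⟨C', hC'⟩ := step0 h3 C hl (min (ε / 2) (1 / 10)) hδ0 (min_le_right _ _) (by
    intro i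
    obtain ⟨p, hp, hdp⟩ := hd i
    have := hcon p hp
    rw [hdp]
    exact this)
  have hle : 2 * min (ε / 2) (1 / 10) ≤ ε := by
    have := min_le_left (ε / 2) (1 / 10 : ℝ)
    linarith
  exact hno S.card C' (hC'.mono hle)

end H47.DR
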