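import Pool.Agent.H47.DR.LSb
import Pool.Agent.H47.DR.Ang

/-!
# Module Ident (about 100 lines)

The identity. For weights `w`, `W = ∑ w i`, `c i j = 2 ip (u i) (u j)^2 - 1` (so `c i i = 1`):
`∑_l ∑_{i,j ∈ l} w i w j c i j = ∑_l ∑_{i ∈ l} w i^2 + ∑_l ∑_{i ∈ l} ∑_{j ∈ l, j ≠ i} w i w j c i j
 = ∑_i w i^2 deg i + ∑_{i ≠ j} w i w j c i j` (`sum_deg`, `sum_pairs`) and
`∑_{i ≠ j} w i w j c i j = 2 ∑_{i,j} w i w j ip^2 - W^2 - ∑ w i^2`.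

`ident_le`: (the number `dw i` counts only the lines through `i` with another point of positive
weight; `w ≥ 0`.) For a line `l` with at most one point of positive weight,
`∑_{i,j ∈ l} w i w j c i j = ∑_{i ∈ l} w i^2`. So
`∑ w i^2 dw i = ∑ w i^2 deg i - ∑_{l with at most one positive} ∑_{i ∈ l} w i^2
 = W^2 + ∑ w i^2 - 2 ∑ w i w j ip^2 + ∑_{other lines} (energy) ≥ ...`, with `wT_nonneg`.
-/

set_option autoImplicit false

namespace H47.DR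

open Finset

variable {n : ℕ}

private theorem ident_cii (C : Cfg n) (i : Fin n) : 2 * ip (C.u i) (C.u i) ^ 2 - 1 = 1 := by
  have h : ip (C.u i) (C.u i) = 1 := by
    change inner ℝ (C.u i) (C.u i) = (1 : ℝ)
    rw [real_inner_self_eq_norm_sq, C.unit i, one_pow]
  rw [h]
  norm_num

private theorem ident_split {s : Finset (Fin n)} {i : Fin n} (hi : i ∈ s) (f : Fin n → ℝ) :
    ∑ j ∈ s, f j = f i + ∑ j ∈ s.filter (fun j => j ≠ i), f j := by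
  have h : s.filter (fun j => j ≠ i) = s.erase i := by
    ext j
    simp only [mem_filter, mem_erase]
    tauto
  rw [h, add_sum_erase s f hi]

theorem Cfg.ident (C : Cfg n) (w : Fin n → ℝ) :
    ∑ i, w i ^ 2 * C.deg i = (∑ i, w i) ^ 2 + ∑ i, w i ^ 2
      - 2 * ∑ i, ∑ j, w i * w j * ip (C.u i) (C.u j) ^ 2
      + ∑ l ∈ C.L, ∑ i ∈ l, ∑ j ∈ l, w i * w j * (2 * ip (C.u i) (C.u j) ^ 2 - 1) := by
  have h1 : ∑ l ∈ C.L, ∑ i ∈ l, ∑ j ∈ l, w i * w j * (2 * ip (C.u i) (C.u j) ^ 2 - 1)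
      = ∑ l ∈ C.L, ∑ i ∈ l, w i ^ 2 + ∑ l ∈ C.L, ∑ i ∈ l, ∑ j ∈ l.filter (fun j => j ≠ i),
          w i * w j * (2 * ip (C.u i) (C.u j) ^ 2 - 1) := by
    rw [← sum_add_distrib]
    refine sum_congr rfl fun l _ => ?_
    rw [← sum_add_distrib]
    refine sum_congr rfl fun i hi => ?_
    rw [ident_split hi, ident_cii]
    ring
  have h2 := C.toLS.sum_deg fun i => w i ^ 2
  have h3 := C.toLS.sum_pairs fun i j _ => w i * w j * (2 * ip (C.u i) (C.u j) ^ 2 - 1)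
  have h4 : ∑ i, ∑ j, w i * w j * (2 * ip (C.u i) (C.u j) ^ 2 - 1)
      = ∑ i, w i ^ 2 + ∑ i, ∑ j ∈ univ.filter (fun j => j ≠ i),
          w i * w j * (2 * ip (C.u i) (C.u j) ^ 2 - 1) := by
    rw [← sum_add_distrib]
    refine sum_congr rfl fun i _ => ?_
    rw [ident_split (mem_univ i), ident_cii]
    ring
  have h5 : ∑ i, ∑ j, w i * w j * (2 * ip (C.u i) (C.u j) ^ 2 - 1)
      = 2 * ∑ i, ∑ j, w i * w j * ip (C.u i) (C.u j) ^ 2 - (∑ i, w i) ^ 2 := by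
    have h6 : (∑ i, w i) ^ 2 = ∑ i, ∑ j, w i * w j := by
      rw [sq, sum_mul_sum]
    rw [h6, mul_sum, ← sum_sub_distrib]
    refine sum_congr rfl fun i _ => ?_
    rw [mul_sum, ← sum_sub_distrib]
    refine sum_congr rfl fun j _ => ?_
    ring
  rw [h1, ← h3, h2]
  have h7 : (∑ l ∈ C.L, ∑ i ∈ l, w i ^ 2) = ∑ l ∈ C.toLS.L, ∑ i ∈ l, w i ^ 2 := rfl
  linarith

/-- Unweighted form. -/
theorem Cfg.ident1 (C : Cfg n) :
    ∑ i, (C.deg i : ℝ) = (n : ℝ) ^ 2 + n - 2 * ∑ i, ∑ j, ip (C.u i) (C.u j) ^ 2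
      + ∑ l ∈ C.L, C.T l := by
  have h := C.ident fun _ => 1
  simp only [one_pow, one_mul, sum_const, card_univ, Fintype.card_fin, nsmul_eq_mul, mul_one] at h
  exact h

private theorem ident_line (C : Cfg n) (w : Fin n → ℝ) (hw : ∀ i, 0 ≤ w i)
    {l : Finset (Fin n)} (hl : l ∈ C.L) [∀ i, Decidable (∃ j ∈ l, j ≠ i ∧ 0 < w j)] :
    ∑ i ∈ l, w i ^ 2 ≤ ∑ i ∈ l, ∑ j ∈ l, w i * w j * (2 * ip (C.u i) (C.u j) ^ 2 - 1)
      + ∑ i ∈ l, (if ∃ j ∈ l, j ≠ i ∧ 0 < w j then w i ^ 2 else 0) := by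
  by_cases h : ∃ i ∈ l, 0 < w i ∧ ¬ ∃ j ∈ l, j ≠ i ∧ 0 < w j
  · obtain ⟨i, hi, hwi, hno⟩ := h
    have hz : ∀ j ∈ l, j ≠ i → w j = 0 := by
      intro j hj hji
      by_contra hne
      exact hno ⟨j, hj, hji, lt_of_le_of_ne (hw j) (Ne.symm hne)⟩
    have h1 : ∑ i ∈ l, w i ^ 2 = w i ^ 2 := by
      rw [sum_eq_single_of_mem i hi fun j hj hji => by rw [hz j hj hji]; ring]
    have h2 : ∑ i ∈ l, ∑ j ∈ l, w i * w j * (2 * ip (C.u i) (C.u j) ^ 2 - 1) = w i ^ 2 := by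
      rw [sum_eq_single_of_mem i hi fun j hj hji => by simp [hz j hj hji],
        sum_eq_single_of_mem i hi fun j hj hji => by rw [hz j hj hji]; ring, ident_cii]
      ring
    have h3 : 0 ≤ ∑ i ∈ l, (if ∃ j ∈ l, j ≠ i ∧ 0 < w j then w i ^ 2 else 0) :=
      sum_nonneg fun i _ => by split_ifs <;> positivity
    rw [h1, h2]
    linarith
  · push Not at h
    obtain ⟨ν, hν, hν'⟩ := C.nu l hl
    have h1 := wT_nonneg l C.u w ν hν fun i hi => ⟨C.unit i, (hν' i).mp hi⟩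
    have h2 : ∑ i ∈ l, w i ^ 2
        ≤ ∑ i ∈ l, (if ∃ j ∈ l, j ≠ i ∧ 0 < w j then w i ^ 2 else 0) := by
      refine sum_le_sum fun i hi => ?_
      rcases (hw i).lt_or_eq with h3 | h3
      · rw [if_pos (h i hi h3)]
      · rw [← h3]
        split_ifs <;> simp
    linarith

theorem Cfg.ident_le (C : Cfg n) (w : Fin n → ℝ) (hw : ∀ i, 0 ≤ w i) :
    (∑ i, w i) ^ 2 + ∑ i, w i ^ 2 - 2 * ∑ i, ∑ j, w i * w j * ip (C.u i) (C.u j) ^ 2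
      ≤ ∑ i, w i ^ 2 *
          ((C.L.filter (fun l => i ∈ l ∧ ∃ j ∈ l, j ≠ i ∧ 0 < w j)).card : ℝ) := by
  have h1 := C.ident w
  have h2 := C.toLS.sum_deg fun i => w i ^ 2
  have h3 : ∑ i, w i ^ 2 * ((C.L.filter (fun l => i ∈ l ∧ ∃ j ∈ l, j ≠ i ∧ 0 < w j)).card : ℝ)
      = ∑ l ∈ C.L, ∑ i ∈ l, (if ∃ j ∈ l, j ≠ i ∧ 0 < w j then w i ^ 2 else 0) := by
    have h4 : ∀ i, w i ^ 2 *
        ((C.L.filter (fun l => i ∈ l ∧ ∃ j ∈ l, j ≠ i ∧ 0 < w j)).card : ℝ)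
        = ∑ l ∈ C.L, (if i ∈ l ∧ ∃ j ∈ l, j ≠ i ∧ 0 < w j then w i ^ 2 else 0) := by
      intro i
      rw [← sum_filter, sum_const, nsmul_eq_mul, mul_comm]
    rw [sum_congr rfl fun i _ => h4 i, sum_comm]
    refine sum_congr rfl fun l _ => ?_
    rw [← sum_filter_add_sum_filter_not univ (fun i => i ∈ l)]
    have h5 : ∑ i ∈ univ.filter (fun i => ¬ i ∈ l),
        (if i ∈ l ∧ ∃ j ∈ l, j ≠ i ∧ 0 < w j then w i ^ 2 else 0) = 0 := by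
      refine sum_eq_zero fun i hi => ?_
      rw [if_neg fun h => (mem_filter.mp hi).2 h.1]
    rw [h5, add_zero, filter_mem_eq_inter, univ_inter]
    refine sum_congr rfl fun i hi => ?_
    by_cases h6 : ∃ j ∈ l, j ≠ i ∧ 0 < w j
    · rw [if_pos h6, if_pos ⟨hi, h6⟩]
    · rw [if_neg h6, if_neg fun h => h6 h.2]
  rw [h3]
  have h4 := sum_le_sum fun l (hl : l ∈ C.L) => ident_line C w hw hl
  rw [sum_add_distrib] at h4
  have h7 : (∑ l ∈ C.L, ∑ i ∈ l, w i ^ 2) = ∑ l ∈ C.toLS.L, ∑ i ∈ l, w i ^ 2 := rfl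
  linarith

end H47.DR
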