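import Pool.Agent.H47.DR.LSb

/-!
# Module Plane (about 200 lines)

From a finite non-collinear set `S` of points of the plane to a configuration with the same numbers.

Proof. Enumerate `S` by `Fin S.card` (`Finset.equivFin`), `v i = (a_i, b_i, 1)` for the point
`(a_i, b_i)`, `u i = v i / ‖v i‖`. `L` = the image of the pairs `i ≠ j` under
`{k | det (v i, v j, v k) = 0}`; `det = 0` iff the three points are collinear
iff `p_k ∈ affineSpan ℝ {p_i, p_j}` (`i ≠ j`). `two`, `ex`, `uniq`: clear (a line is determined by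
two of its points; work with `affineSpan` or with the determinants). `indep`: equality in
Cauchy-Schwarz would make `v i`, `v j` proportional, hence equal (last coordinate `1`). `nu`: the
normalised cross product `v i × v j`, whose inner product with `v k` is the determinant. `deg i`: the lines of
`L` through `i` correspond to the sets `affineSpan ℝ {p_i, q}`, `q ∈ S`, `q ≠ p_i`
(`l ↦ affineSpan ℝ {p_i, p_j}`, `j ∈ l`, `j ≠ i`, is a bijection). No line of `L` contains everything
since `S` is not collinear; `3 ≤ card` since a set with at most two points is collinear.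
-/

set_option autoImplicit false

namespace H47.DR

open Finset

/-- the plane -/
private abbrev P2 := EuclideanSpace ℝ (Fin 2)

/-- twice the signed area -/
private def pD (a b c : P2) : ℝ := (b 0 - a 0) * (c 1 - a 1) - (b 1 - a 1) * (c 0 - a 0)

private theorem pl_ne {a b : P2} (h : a ≠ b) : b 0 - a 0 ≠ 0 ∨ b 1 - a 1 ≠ 0 := by
  by_contra hc
  push Not at hc
  apply h
  ext i
  fin_cases i
  · show a 0 = b 0
    linarith [hc.1]
  · show a 1 = b 1
    linarith [hc.2]

private theorem pl_param {a b c : P2} (hab : a ≠ b) (h : pD a b c = 0) :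
    ∃ t : ℝ, c = t • (b - a) + a := by
  unfold pD at h
  rcases pl_ne hab with h0 | h0
  · refine ⟨(c 0 - a 0) / (b 0 - a 0), ?_⟩
    ext i
    fin_cases i
    · show c 0 = (c 0 - a 0) / (b 0 - a 0) * (b 0 - a 0) + a 0
      field_simp
      ring
    · show c 1 = (c 0 - a 0) / (b 0 - a 0) * (b 1 - a 1) + a 1
      field_simp
      linarith
  · refine ⟨(c 1 - a 1) / (b 1 - a 1), ?_⟩
    ext i
    fin_cases i
    · show c 0 = (c 1 - a 1) / (b 1 - a 1) * (b 0 - a 0) + a 0
      field_simp
      linarith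
    · show c 1 = (c 1 - a 1) / (b 1 - a 1) * (b 1 - a 1) + a 1
      field_simp
      ring

private theorem pl_change {a b c d : P2} (hab : a ≠ b) (hc : pD a b c = 0) (hd : pD a b d = 0)
    (hcd : c ≠ d) (x : P2) : pD a b x = 0 ↔ pD c d x = 0 := by
  obtain ⟨s, hs⟩ := pl_param hab hc
  obtain ⟨t, ht⟩ := pl_param hab hd
  have hst : t - s ≠ 0 := by
    intro h
    apply hcd
    rw [hs, ht, sub_eq_zero.1 h]
  have hc0 : c 0 = s * (b 0 - a 0) + a 0 := by rw [hs]; rfl
  have hc1 : c 1 = s * (b 1 - a 1) + a 1 := by rw [hs]; rfl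
  have hd0 : d 0 = t * (b 0 - a 0) + a 0 := by rw [ht]; rfl
  have hd1 : d 1 = t * (b 1 - a 1) + a 1 := by rw [ht]; rfl
  have key : pD c d x = (t - s) * pD a b x := by
    unfold pD
    rw [hc0, hc1, hd0, hd1]
    ring
  rw [key, mul_eq_zero]
  constructor
  · exact fun h => Or.inr h
  · exact fun h => h.resolve_left hst

private theorem pl_mem {a b c : P2} (hab : a ≠ b) : c ∈ affineSpan ℝ {a, b} ↔ pD a b c = 0 := by
  have e : c = (c - a) +ᵥ a := by simp
  constructor
  · intro h
    rw [e, vadd_left_mem_affineSpan_pair] at h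
    obtain ⟨t, ht⟩ := h
    have h0 : t * (b 0 - a 0) = c 0 - a 0 := congrArg (fun z : P2 => z 0) ht
    have h1 : t * (b 1 - a 1) = c 1 - a 1 := congrArg (fun z : P2 => z 1) ht
    unfold pD
    rw [← h0, ← h1]
    ring
  · intro h
    obtain ⟨t, ht⟩ := pl_param hab h
    rw [e, vadd_left_mem_affineSpan_pair]
    refine ⟨t, ?_⟩
    rw [ht]
    simp

private theorem pl_aa (a b : P2) : pD a b a = 0 := by unfold pD; ring

private theorem pl_ab (a b : P2) : pD a b b = 0 := by unfold pD; ring

/-- the lift to 3-space -/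
private noncomputable def pv (a : P2) : E := !₂[a 0, a 1, 1]

/-- the cross product -/
private noncomputable def pN (a b : P2) : E := !₂[a 1 - b 1, b 0 - a 0, a 0 * b 1 - a 1 * b 0]

private theorem pl_ip3 (x y z x' y' z' : ℝ) :
    ip (!₂[x, y, z] : E) !₂[x', y', z'] = x * x' + y * y' + z * z' := by
  simp [ip, EuclideanSpace.inner_eq_star_dotProduct, dotProduct, Fin.sum_univ_three]
  ring

private theorem pl_ipN (a b c : P2) : ip (pv c) (pN a b) = pD a b c := by
  unfold pv pN
  rw [pl_ip3]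
  unfold pD
  ring

private theorem pl_pv_pos (a : P2) : 0 < ‖pv a‖ := by
  rw [norm_pos_iff]
  intro h
  have h1 : (pv a) 2 = 0 := by rw [h]; rfl
  have h2 : (pv a) 2 = 1 := rfl
  rw [h2] at h1
  exact one_ne_zero h1

private theorem pl_nsq (x : E) : ‖x‖ ^ 2 = ip x x := (real_inner_self_eq_norm_sq x).symm

private theorem pl_N_pos {a b : P2} (hab : a ≠ b) : 0 < ‖pN a b‖ := by
  rw [norm_pos_iff]
  intro h
  have h1 : (pN a b) 0 = 0 := by rw [h]; rfl
  have h2 : (pN a b) 1 = 0 := by rw [h]; rfl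
  have h3 : a 1 - b 1 = 0 := h1
  have h4 : b 0 - a 0 = 0 := h2
  rcases pl_ne hab with h0 | h0
  · exact h0 h4
  · exact h0 (by linarith)

private theorem pl_indep {a b : P2} (hab : a ≠ b) :
    |ip ((‖pv a‖)⁻¹ • pv a) ((‖pv b‖)⁻¹ • pv b)| < 1 := by
  have ha := pl_pv_pos a
  have hb := pl_pv_pos b
  have h1 : ip ((‖pv a‖)⁻¹ • pv a) ((‖pv b‖)⁻¹ • pv b) = ip (pv a) (pv b) / (‖pv a‖ * ‖pv b‖) := by
    simp only [ip, real_inner_smul_left, real_inner_smul_right]
    field_simp
  have h2 : ip (pv a) (pv b) ^ 2 < (‖pv a‖ * ‖pv b‖) ^ 2 := by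
    rw [mul_pow, pl_nsq, pl_nsq]
    unfold pv
    rw [pl_ip3, pl_ip3, pl_ip3]
    have h3 : 0 < (a 1 - b 1) ^ 2 + (b 0 - a 0) ^ 2 := by
      rcases pl_ne hab with h0 | h0
      · have := pow_pos (abs_pos.2 h0) 2
        rw [sq_abs] at this
        nlinarith [sq_nonneg (a 1 - b 1)]
      · have := pow_pos (abs_pos.2 h0) 2
        rw [sq_abs] at this
        nlinarith [sq_nonneg (b 0 - a 0)]
    nlinarith [sq_nonneg (a 0 * b 1 - a 1 * b 0)]
  rw [h1, abs_div, abs_of_pos (mul_pos ha hb), div_lt_one (mul_pos ha hb)]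
  exact abs_lt_of_sq_lt_sq h2 (mul_pos ha hb).le

open Classical in
theorem plane (S : Finset (EuclideanSpace ℝ (Fin 2)))
    (hS : ¬ Collinear ℝ (S : Set (EuclideanSpace ℝ (Fin 2)))) :
    3 ≤ S.card ∧ ∃ C : Cfg S.card, (∀ l ∈ C.L, ∃ i, i ∉ l) ∧
      ∀ i, ∃ p ∈ S, C.deg i = {L : AffineSubspace ℝ (EuclideanSpace ℝ (Fin 2)) |
        ∃ q ∈ S, q ≠ p ∧ L = affineSpan ℝ {p, q}}.ncard := by
  refine ⟨?_, ?_⟩
  · by_contra hc
    have hc' : S.card ≤ 2 := by omega
    apply hS
    rcases Nat.lt_or_ge S.card 2 with h | h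
    · have h1 : S.card ≤ 1 := by omega
      rcases S.eq_empty_or_nonempty with h0 | ⟨x, hx⟩
      · rw [h0, Finset.coe_empty]
        exact collinear_empty ℝ _
      · have h3 : S = {x} := Finset.eq_singleton_iff_unique_mem.2
          ⟨hx, fun y hy => Finset.card_le_one.1 h1 y hy x hx⟩
        rw [h3, Finset.coe_singleton]
        exact collinear_singleton ℝ x
    · obtain ⟨x, y, _, hxy⟩ := Finset.card_eq_two.1 (le_antisymm hc' h)
      rw [hxy, Finset.coe_pair]
      exact collinear_pair ℝ x y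
  let p : Fin S.card → P2 := fun i => (S.equivFin.symm i : P2)
  have hpS : ∀ i, p i ∈ S := fun i => (S.equivFin.symm i).2
  have hpi : ∀ i j, i ≠ j → p i ≠ p j := by
    intro i j hij h
    exact hij (S.equivFin.symm.injective (Subtype.ext h))
  have hps : ∀ q ∈ S, ∃ i, p i = q := by
    intro q hq
    exact ⟨S.equivFin ⟨q, hq⟩, by simp [p]⟩
  let ls : Fin S.card → Fin S.card → Finset (Fin S.card) := fun a b =>
    univ.filter fun k => pD (p a) (p b) (p k) = 0
  have hls : ∀ a b k, k ∈ ls a b ↔ pD (p a) (p b) (p k) = 0 := by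
    intro a b k
    simp [ls]
  let LL : Finset (Finset (Fin S.card)) :=
    (univ.filter fun ab : Fin S.card × Fin S.card => ab.1 ≠ ab.2).image fun ab => ls ab.1 ab.2
  have hLL : ∀ l, l ∈ LL ↔ ∃ a b, a ≠ b ∧ ls a b = l := by
    intro l
    simp [LL]
  have hch : ∀ a b i j, a ≠ b → i ≠ j → i ∈ ls a b → j ∈ ls a b → ls a b = ls i j := by
    intro a b i j hab hij hi hj
    rw [hls] at hi hj
    ext k
    rw [hls, hls]
    exact pl_change (hpi a b hab) hi hj (hpi i j hij) (p k)
  have hla : ∀ a b, a ∈ ls a b := fun a b => (hls a b a).2 (pl_aa _ _)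
  have hlb : ∀ a b, b ∈ ls a b := fun a b => (hls a b b).2 (pl_ab _ _)
  let C : Cfg S.card :=
    { L := LL
      two := by
        intro l hl
        obtain ⟨a, b, hab, rfl⟩ := (hLL l).1 hl
        exact Finset.one_lt_card.2 ⟨a, hla a b, b, hlb a b, hab⟩
      ex := by
        intro i j hij
        exact ⟨ls i j, (hLL _).2 ⟨i, j, hij, rfl⟩, hla i j, hlb i j⟩
      uniq := by
        intro l hl l' hl' i j hij hi hj hi' hj'
        obtain ⟨a, b, hab, rfl⟩ := (hLL l).1 hl
        obtain ⟨a', b', hab', rfl⟩ := (hLL l').1 hl'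
        rw [hch a b i j hab hij hi hj, hch a' b' i j hab' hij hi' hj']
      u := fun i => (‖pv (p i)‖)⁻¹ • pv (p i)
      unit := by
        intro i
        have := pl_pv_pos (p i)
        rw [norm_smul, norm_inv, norm_norm, inv_mul_cancel₀ this.ne']
      indep := by
        intro i j hij
        exact pl_indep (hpi i j hij)
      nu := by
        intro l hl
        obtain ⟨a, b, hab, rfl⟩ := (hLL l).1 hl
        have hN := pl_N_pos (hpi a b hab)
        refine ⟨(‖pN (p a) (p b)‖)⁻¹ • pN (p a) (p b), ?_, fun i => ?_⟩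
        · rw [norm_smul, norm_inv, norm_norm, inv_mul_cancel₀ hN.ne']
        · have hv := pl_pv_pos (p i)
          have h1 : ip ((‖pv (p i)‖)⁻¹ • pv (p i)) ((‖pN (p a) (p b)‖)⁻¹ • pN (p a) (p b)) =
              (‖pv (p i)‖)⁻¹ * ((‖pN (p a) (p b)‖)⁻¹ * pD (p a) (p b) (p i)) := by
            rw [← pl_ipN]
            simp only [ip, real_inner_smul_left, real_inner_smul_right]
            ring
          rw [h1, hls, mul_eq_zero, mul_eq_zero]
          constructor
          · exact fun h => Or.inr (Or.inr h)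
          · intro h
            exact (h.resolve_left (inv_ne_zero hv.ne')).resolve_left (inv_ne_zero hN.ne') }
  refine ⟨C, ?_, ?_⟩
  · intro l hl
    obtain ⟨a, b, hab, rfl⟩ := (hLL l).1 hl
    by_contra hc
    push Not at hc
    apply hS
    rw [collinear_iff_exists_forall_eq_smul_vadd]
    refine ⟨p a, p b - p a, fun q hq => ?_⟩
    obtain ⟨k, rfl⟩ := hps q hq
    obtain ⟨t, ht⟩ := pl_param (hpi a b hab) ((hls a b k).1 (hc k))
    exact ⟨t, ht⟩
  · intro i
    refine ⟨p i, hpS i, ?_⟩
    let F : Finset (Fin S.card) → AffineSubspace ℝ P2 := fun l => affineSpan ℝ (p '' (l : Set _))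
    have hF : ∀ a b, a ≠ b → F (ls a b) = affineSpan ℝ {p a, p b} := by
      intro a b hab
      refine le_antisymm (affineSpan_le.2 ?_) (affineSpan_mono ℝ ?_)
      · rintro _ ⟨k, hk, rfl⟩
        exact (pl_mem (hpi a b hab)).2 ((hls a b k).1 hk)
      · rintro x (rfl | rfl)
        · exact ⟨a, hla a b, rfl⟩
        · exact ⟨b, hlb a b, rfl⟩
    have hinj : Set.InjOn F (LL.filter (fun l => i ∈ l) : Set (Finset (Fin S.card))) := by
      intro l hl l' hl' h
      rw [Finset.coe_filter] at hl hl'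
      obtain ⟨a, b, hab, rfl⟩ := (hLL l).1 hl.1
      obtain ⟨a', b', hab', rfl⟩ := (hLL l').1 hl'.1
      rw [hF a b hab, hF a' b' hab'] at h
      ext k
      rw [hls, hls, ← pl_mem (hpi a b hab), ← pl_mem (hpi a' b' hab'), h]
    have himg : {L : AffineSubspace ℝ (EuclideanSpace ℝ (Fin 2)) |
        ∃ q ∈ S, q ≠ p i ∧ L = affineSpan ℝ {p i, q}} =
        F '' (LL.filter (fun l => i ∈ l) : Set (Finset (Fin S.card))) := by
      ext Λ
      constructor
      · rintro ⟨q, hq, hqi, rfl⟩
        obtain ⟨j, rfl⟩ := hps q hq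
        have hij : i ≠ j := by
          rintro rfl
          exact hqi rfl
        refine ⟨ls i j, ?_, hF i j hij⟩
        rw [Finset.coe_filter]
        exact ⟨(hLL _).2 ⟨i, j, hij, rfl⟩, hla i j⟩
      · rintro ⟨l, hl, rfl⟩
        rw [Finset.coe_filter] at hl
        obtain ⟨a, b, hab, rfl⟩ := (hLL l).1 hl.1
        obtain ⟨j, hji, hj⟩ : ∃ j, i ≠ j ∧ j ∈ ls a b := by
          by_cases hia : i = a
          · exact ⟨b, by rw [hia]; exact hab, hlb a b⟩
          · exact ⟨a, hia, hla a b⟩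
        refine ⟨p j, hpS j, (hpi i j hji).symm, ?_⟩
        rw [hch a b i j hab hji hl.2 hj, hF i j hji]
    rw [himg, hinj.ncard_image, Set.ncard_coe_finset]
    rfl

end H47.DR
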