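import Pool.Agent.H47.DR.Ident
import Pool.Agent.H47.DR.Move
import Pool.Agent.H47.DR.IsoPos

/-!
# Module Wt (about 70 lines): the weighted inequality

Proof. Let `e > 0` be small, `g` from `isoPos` and `C'` from `move`. By `ident_le` for `C'` (same
`L`) the right side is at least `W^2 + ∑ w^2 - 2 ∑_{i,j} w i w j ip(u'_i, u'_j)^2` and
`∑_{i,j} w i w j ip(u'_i,u'_j)^2 = ∑_j w j (∑_i w i ip(u'_i, u'_j)^2) ≤ W (W/3 + e)`. So it is at least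
`W^2/3 + ∑ w^2 - 2 e W`; let `e` tend to `0` (or take `2 e ≤ 1` and use
`∑ w^2 ≥ ∑ w = W` for natural numbers).
-/

set_option autoImplicit false

namespace H47.DR

open Finset

variable {n : ℕ}

theorem Cfg.wt (C : Cfg n) (w : Fin n → ℕ) (h1 : ∀ i, 3 * w i ≤ ∑ j, w j)
    (h2 : ∀ l ∈ C.L, 3 * ∑ i ∈ l, w i ≤ 2 * ∑ j, w j) :
    (∑ i, (w i : ℝ)) ^ 2 / 3 ≤ ∑ i, (w i : ℝ) ^ 2 *
      ((C.L.filter (fun l => i ∈ l ∧ ∃ j ∈ l, j ≠ i ∧ 0 < w j)).card : ℝ) := by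
  obtain ⟨g, hg⟩ := C.isoPos w h1 h2 (1 / 2) (by norm_num)
  obtain ⟨C', hC, hu⟩ := C.move g
  have hL : C'.L = C.L := by
    rw [hC]
  have h3 := C'.ident_le (fun i => (w i : ℝ)) fun i => Nat.cast_nonneg _
  have h4 : ∑ i, (w i : ℝ) ^ 2 *
      ((C'.L.filter (fun l => i ∈ l ∧ ∃ j ∈ l, j ≠ i ∧ (0 : ℝ) < (w j : ℝ))).card : ℝ)
      = ∑ i, (w i : ℝ) ^ 2 *
      ((C.L.filter (fun l => i ∈ l ∧ ∃ j ∈ l, j ≠ i ∧ 0 < w j)).card : ℝ) := by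
    rw [hL]
    simp only [Nat.cast_pos]
  rw [h4] at h3
  have h5 : ∑ i, ∑ j, (w i : ℝ) * w j * ip (C'.u i) (C'.u j) ^ 2
      ≤ (∑ j, (w j : ℝ)) * ((∑ i, (w i : ℝ)) / 3 + 1 / 2) := by
    rw [sum_comm, sum_mul]
    refine sum_le_sum fun j _ => ?_
    have h6 := hg (C'.u j)
    rw [C'.unit j, one_pow, mul_one] at h6
    have h7 : ∑ i, (w i : ℝ) * w j * ip (C'.u i) (C'.u j) ^ 2
        = (w j : ℝ) * ∑ i, (w i : ℝ) * ip ((‖g (C.u i)‖)⁻¹ • g (C.u i)) (C'.u j) ^ 2 := by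
      rw [mul_sum]
      refine sum_congr rfl fun i _ => ?_
      rw [hu i]
      ring
    rw [h7]
    exact mul_le_mul_of_nonneg_left h6 (Nat.cast_nonneg _)
  have h8 : ∑ i, (w i : ℝ) ≤ ∑ i, (w i : ℝ) ^ 2 := by
    refine sum_le_sum fun i _ => ?_
    have : w i ≤ w i ^ 2 := Nat.le_self_pow two_ne_zero _
    exact_mod_cast this
  nlinarith

end H47.DR
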